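import Mathlib

set_option autoImplicit false
open MeasureTheory Set Filter Topology
open scoped RealInnerProductSpace

namespace Pool.Agent.W773.Hardy

/-- Euclidean space -/
abbrev E (n : ℕ) : Type := EuclideanSpace ℝ (Fin n)

variable {n : ℕ}

theorem hasFDerivAt_coord (i : Fin n) (x : E n) :
    HasFDerivAt (fun x : E n => x i) (EuclideanSpace.proj i : E n →L[ℝ] ℝ) x :=
  (EuclideanSpace.proj i : E n →L[ℝ] ℝ).hasFDerivAt

theorem sum_basis (x : E n) : x = ∑ i, x i • EuclideanSpace.single i (1 : ℝ) := by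
  ext j
  simp [Pi.single_apply]

/-- Euler identity in integrated form. -/
theorem euler (G : E n → ℝ) (hG : ContDiff ℝ 1 G) (hc : HasCompactSupport G) :
    ∫ x, fderiv ℝ G x x = -(n : ℝ) * ∫ x, G x := by
  have hG' : Continuous (fderiv ℝ G) := hG.continuous_fderiv one_ne_zero
  have hcf : HasCompactSupport (fderiv ℝ G) := hc.fderiv ℝ
  have h1 : ∀ i : Fin n, ∫ x : E n, x i * fderiv ℝ G x (EuclideanSpace.single i (1:ℝ)) =
      -∫ x, G x := by
    intro i
    have h := integral_mul_fderiv_eq_neg_fderiv_mul_of_integrable (μ := (volume : Measure (E n)))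
      (f := fun x : E n => x i) (g := G) (v := EuclideanSpace.single i (1:ℝ)) ?_ ?_ ?_ ?_ ?_
    · rw [h]
      congr 1
      apply integral_congr_ae
      refine Eventually.of_forall fun x => ?_
      simp only
      rw [(hasFDerivAt_coord i x).fderiv]
      simp
    · have : (fun x : E n => (fderiv ℝ (fun x : E n => x i) x) (EuclideanSpace.single i (1:ℝ)) * G x)
          = G := by
        funext x
        rw [(hasFDerivAt_coord i x).fderiv]
        simp
      rw [this]
      exact hG.continuous.integrable_of_hasCompactSupport hc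
    · refine Continuous.integrable_of_hasCompactSupport ?_ ?_
      · exact (by fun_prop : Continuous fun x : E n => x i).mul (hG'.clm_apply continuous_const)
      · refine HasCompactSupport.mul_left ?_
        exact hcf.comp_left (g := fun L : E n →L[ℝ] ℝ => L (EuclideanSpace.single i (1:ℝ))) (by simp)
    · refine Continuous.integrable_of_hasCompactSupport ?_ ?_
      · exact (by fun_prop : Continuous fun x : E n => x i).mul hG.continuous
      · exact hc.mul_left
    · intro x _
      exact (hasFDerivAt_coord i x).differentiableAt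
    · intro x _
      exact (hG.differentiable one_ne_zero) x
  have h2 : ∀ x : E n, fderiv ℝ G x x =
      ∑ i, x i * fderiv ℝ G x (EuclideanSpace.single i (1:ℝ)) := by
    intro x
    have e : fderiv ℝ G x x = fderiv ℝ G x (∑ i, x i • EuclideanSpace.single i (1 : ℝ)) := by
      rw [← sum_basis x]
    rw [e, map_sum]
    refine Finset.sum_congr rfl fun i _ => ?_
    rw [map_smul, smul_eq_mul]
  have h3 : ∀ i : Fin n, Integrable (fun x : E n => x i *
      fderiv ℝ G x (EuclideanSpace.single i (1:ℝ))) := by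
    intro i
    refine Continuous.integrable_of_hasCompactSupport ?_ ?_
    · exact (by fun_prop : Continuous fun x : E n => x i).mul (hG'.clm_apply continuous_const)
    · refine HasCompactSupport.mul_left ?_
      exact hcf.comp_left (g := fun L : E n →L[ℝ] ℝ => L (EuclideanSpace.single i (1:ℝ))) (by simp)
  rw [integral_congr_ae (Eventually.of_forall h2), integral_finsetSum _ fun i _ => h3 i,
    Finset.sum_congr rfl fun i _ => h1 i]
  simp

/-- `1 + |x|²` -/
noncomputable def D (x : E n) : ℝ := 1 + ‖x‖ ^ 2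

theorem D_pos (x : E n) : 0 < D x := by unfold D; positivity
theorem D_one_le (x : E n) : 1 ≤ D x := by unfold D; nlinarith [sq_nonneg ‖x‖]

theorem D_hasFDerivAt (x : E n) : HasFDerivAt (D : E n → ℝ) (2 • (innerSL ℝ x)) x := by
  unfold D
  exact (hasStrictFDerivAt_norm_sq x).hasFDerivAt.const_add 1

theorem D_contDiff {k : WithTop ℕ∞} : ContDiff ℝ k (D : E n → ℝ) := by
  unfold D
  exact contDiff_const.add (contDiff_norm_sq ℝ)

theorem Dpow_contDiff {k : WithTop ℕ∞} (p : ℝ) : ContDiff ℝ k (fun x : E n => D x ^ p) :=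
  D_contDiff.rpow_const_of_ne fun x => (D_pos x).ne'

theorem Dpow_cont (p : ℝ) : Continuous (fun x : E n => D x ^ p) :=
  (Dpow_contDiff (k := 0) p).continuous

theorem Dpow_hasFDerivAt (p : ℝ) (x : E n) :
    HasFDerivAt (fun x : E n => D x ^ p) ((p * D x ^ (p - 1)) • (2 • (innerSL ℝ x))) x :=
  (D_hasFDerivAt x).rpow_const (Or.inl (D_pos x).ne')

theorem ibp (p : ℝ) (g : E n → ℝ) (hg : ContDiff ℝ 1 g) (hc : HasCompactSupport g) :
    ∫ x, D x ^ p * fderiv ℝ g x x =
      -∫ x, (n * D x ^ p + 2 * p * ‖x‖ ^ 2 * D x ^ (p - 1)) * g x := by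
  have h1 : ∀ x : E n, fderiv ℝ (fun x => D x ^ p * g x) x x =
      D x ^ p * fderiv ℝ g x x + (2 * p * ‖x‖ ^ 2 * D x ^ (p - 1)) * g x := by
    intro x
    have h := (Dpow_hasFDerivAt p x).mul ((hg.differentiable one_ne_zero) x).hasFDerivAt
    have h' : fderiv ℝ (fun x => D x ^ p * g x) x = _ := h.fderiv
    rw [h']
    simp only [add_apply, smul_apply, smul_eq_mul,
      nsmul_eq_mul, innerSL_apply_apply, real_inner_self_eq_norm_sq]
    push_cast
    ring
  have hG : ContDiff ℝ 1 (fun x : E n => D x ^ p * g x) := (Dpow_contDiff p).mul hg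
  have hGc : HasCompactSupport (fun x : E n => D x ^ p * g x) := hc.mul_left
  have h2 := euler _ hG hGc
  rw [integral_congr_ae (Eventually.of_forall h1)] at h2
  have hg' : Continuous (fderiv ℝ g) := hg.continuous_fderiv one_ne_zero
  have hcf : HasCompactSupport (fderiv ℝ g) := hc.fderiv ℝ
  have i1 : Integrable (fun x : E n => D x ^ p * fderiv ℝ g x x) := by
    refine Continuous.integrable_of_hasCompactSupport ?_ ?_
    · exact (Dpow_cont p).mul (hg'.clm_apply continuous_id)
    · refine HasCompactSupport.mul_left ?_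
      refine HasCompactSupport.intro hcf fun x hx => ?_
      rw [image_eq_zero_of_notMem_tsupport hx]
      rfl
  have i2 : Integrable (fun x : E n => (2 * p * ‖x‖ ^ 2 * D x ^ (p - 1)) * g x) := by
    refine Continuous.integrable_of_hasCompactSupport ?_ hc.mul_left
    exact (((continuous_const.mul (continuous_norm.pow 2)).mul (Dpow_cont (p - 1)))).mul
      hg.continuous
  have i3 : Integrable (fun x : E n => D x ^ p * g x) :=
    Continuous.integrable_of_hasCompactSupport ((Dpow_cont p).mul hg.continuous) hc.mul_left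
  rw [integral_add i1 i2] at h2
  have h3 : ∫ x : E n, (n * D x ^ p + 2 * p * ‖x‖ ^ 2 * D x ^ (p - 1)) * g x =
      n * (∫ x : E n, D x ^ p * g x) + ∫ x : E n, (2 * p * ‖x‖ ^ 2 * D x ^ (p - 1)) * g x := by
    rw [← integral_const_mul, ← integral_add (i3.const_mul _) i2]
    apply integral_congr_ae
    refine Eventually.of_forall fun x => ?_
    simp only
    ring
  rw [h3]
  linarith

/-- numerator -/
noncomputable def num (α : ℝ) (u : E n → ℝ) : ℝ := ∫ x, D x ^ α * ‖fderiv ℝ u x‖ ^ 2
/-- denominator -/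
noncomputable def den (α : ℝ) (u : E n → ℝ) : ℝ := ∫ x, D x ^ (α - 1) * u x ^ 2

theorem i_num (α : ℝ) (u : E n → ℝ) (hu : ContDiff ℝ 1 u) (hc : HasCompactSupport u) :
    Integrable (fun x => D x ^ α * ‖fderiv ℝ u x‖ ^ 2) := by
  refine Continuous.integrable_of_hasCompactSupport ?_ ?_
  · exact (Dpow_cont α).mul ((hu.continuous_fderiv one_ne_zero).norm.pow 2)
  · refine HasCompactSupport.mul_left ?_
    exact (hc.fderiv ℝ).comp_left (g := fun L : E n →L[ℝ] ℝ => ‖L‖ ^ 2) (by simp)

theorem i_den (α : ℝ) (u : E n → ℝ) (hu : Continuous u) (hc : HasCompactSupport u) :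
    Integrable (fun x => D x ^ α * u x ^ 2) := by
  refine Continuous.integrable_of_hasCompactSupport ?_ ?_
  · exact (Dpow_cont α).mul (hu.pow 2)
  · refine HasCompactSupport.mul_left ?_
    exact hc.comp_left (g := fun t : ℝ => t ^ 2) (by simp)

/-- the ground state inequality -/
theorem ground (α γ : ℝ) (u : E n → ℝ) (hu : ContDiff ℝ 1 u) (hc : HasCompactSupport u) :
    ∫ x, (2 * γ * (n + 2 * (α - 1 - γ) * (‖x‖ ^ 2 / D x))) * (D x ^ (α - 1) * u x ^ 2) ≤
      num α u := by
  have hpt : ∀ x : E n, -(4 * γ * D x ^ (α - 1) * (u x * fderiv ℝ u x x)) -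
      4 * γ ^ 2 * ‖x‖ ^ 2 * D x ^ (α - 2) * u x ^ 2 ≤ D x ^ α * ‖fderiv ℝ u x‖ ^ 2 := by
    intro x
    have hD := D_pos x
    have h1 : |fderiv ℝ u x x| ≤ ‖fderiv ℝ u x‖ * ‖x‖ := by
      rw [← Real.norm_eq_abs]; exact (fderiv ℝ u x).le_opNorm x
    have e1 : D x ^ (α - 1) = D x ^ (α - 2) * D x := by
      rw [← Real.rpow_add_one hD.ne']; congr 1; ring
    have e2 : D x ^ α = D x ^ (α - 2) * D x ^ 2 := by
      rw [← Real.rpow_natCast, ← Real.rpow_add hD]; congr 1; push_cast; ring
    rw [e1, e2]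
    have hP : 0 < D x ^ (α - 2) := Real.rpow_pos_of_pos hD _
    have key : 0 ≤ D x ^ 2 * ‖fderiv ℝ u x‖ ^ 2 + 4 * γ * D x * (u x * fderiv ℝ u x x) +
        4 * γ ^ 2 * ‖x‖ ^ 2 * u x ^ 2 := by
      have h2 : -(|2 * γ * u x| * (‖fderiv ℝ u x‖ * ‖x‖)) ≤ 2 * γ * u x * fderiv ℝ u x x := by
        have := neg_abs_le (2 * γ * u x * fderiv ℝ u x x)
        rw [abs_mul] at this
        have h3 := mul_le_mul_of_nonneg_left h1 (abs_nonneg (2 * γ * u x))
        linarith
      have h4 : 4 * γ ^ 2 * ‖x‖ ^ 2 * u x ^ 2 = (|2 * γ * u x| * ‖x‖) ^ 2 := by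
        rw [mul_pow, sq_abs]; ring
      rw [h4]
      nlinarith [sq_nonneg (D x * ‖fderiv ℝ u x‖ - |2 * γ * u x| * ‖x‖), hD]
    nlinarith
  have hG : ContDiff ℝ 1 (fun x : E n => u x ^ 2) := hu.pow 2
  have hGc : HasCompactSupport (fun x : E n => u x ^ 2) :=
    hc.comp_left (g := fun t : ℝ => t ^ 2) (by simp)
  have hb := ibp (α - 1) _ hG hGc
  have hfd : ∀ x : E n, fderiv ℝ (fun x : E n => u x ^ 2) x x = 2 * (u x * fderiv ℝ u x x) := by
    intro x
    have h := ((hu.differentiable one_ne_zero) x).hasFDerivAt.pow 2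
    rw [h.fderiv]
    simp only [smul_apply, smul_eq_mul, nsmul_eq_mul]
    push_cast
    ring
  simp only [hfd] at hb
  have hu' : Continuous (fderiv ℝ u) := hu.continuous_fderiv one_ne_zero
  have i1 : Integrable (fun x : E n => 4 * γ * D x ^ (α - 1) * (u x * fderiv ℝ u x x)) := by
    refine Continuous.integrable_of_hasCompactSupport ?_ ?_
    · exact (continuous_const.mul (Dpow_cont _)).mul
        (hu.continuous.mul (hu'.clm_apply continuous_id))
    · exact HasCompactSupport.mul_left hc.mul_right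
  have i2 : Integrable (fun x : E n => 4 * γ ^ 2 * ‖x‖ ^ 2 * D x ^ (α - 2) * u x ^ 2) := by
    refine Continuous.integrable_of_hasCompactSupport ?_ hGc.mul_left
    exact ((continuous_const.mul (continuous_norm.pow 2)).mul (Dpow_cont _)).mul
      (hu.continuous.pow 2)
  have h5 := integral_mono (i1.neg.sub i2) (i_num α u hu hc) hpt
  have h5' : ∫ x : E n, (-(4 * γ * D x ^ (α - 1) * (u x * fderiv ℝ u x x)) -
      4 * γ ^ 2 * ‖x‖ ^ 2 * D x ^ (α - 2) * u x ^ 2) ≤ num α u := h5
  refine le_trans (le_of_eq ?_) h5'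
  have h6 : ∫ x : E n, (-(4 * γ * D x ^ (α - 1) * (u x * fderiv ℝ u x x)) -
      4 * γ ^ 2 * ‖x‖ ^ 2 * D x ^ (α - 2) * u x ^ 2) =
      -(2 * γ * ∫ x : E n, D x ^ (α - 1) * (2 * (u x * fderiv ℝ u x x))) -
        ∫ x : E n, 4 * γ ^ 2 * ‖x‖ ^ 2 * D x ^ (α - 2) * u x ^ 2 := by
    have i1n : Integrable (fun x : E n => -(4 * γ * D x ^ (α - 1) * (u x * fderiv ℝ u x x))) :=
      i1.neg
    rw [integral_sub i1n i2, ← integral_const_mul, integral_neg]
    congr 2
    apply integral_congr_ae
    refine Eventually.of_forall fun x => ?_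
    simp only
    ring
  rw [h6, hb, mul_neg, neg_neg, ← integral_const_mul, ← integral_sub]
  · apply integral_congr_ae
    refine Eventually.of_forall fun x => ?_
    have hD := D_pos x
    have e1 : D x ^ (α - 1) = D x ^ (α - 2) * D x := by
      rw [← Real.rpow_add_one hD.ne']; congr 1; ring
    have e3 : α - 1 - 1 = α - 2 := by ring
    simp only [e3, e1]
    field_simp
    ring
  · refine Integrable.const_mul ?_ _
    refine Continuous.integrable_of_hasCompactSupport ?_ hGc.mul_left
    refine Continuous.mul ?_ (hu.continuous.pow 2)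
    exact (continuous_const.mul (Dpow_cont _)).add
      ((continuous_const.mul (continuous_norm.pow 2)).mul (Dpow_cont _))
  · exact i2

end Pool.Agent.W773.Hardy
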