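import Mathlib
import Pool.Agent.W773.Hardy.A1

set_option autoImplicit false
open MeasureTheory Set Filter Topology
open scoped RealInnerProductSpace ContDiff

namespace Pool.Agent.W773.Hardy

variable {n : ℕ}

theorem Dpow_integrable {p : ℝ} (hp : p < -(n : ℝ) / 2) : Integrable (fun x : E n => D x ^ p) := by
  have h := integrable_rpow_neg_one_add_norm_sq (μ := (volume : Measure (E n))) (r := -2 * p)
    (by simp only [finrank_euclideanSpace, Fintype.card_fin]; linarith)
  refine h.congr (Eventually.of_forall fun x => ?_)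
  simp only [D]
  congr 1
  ring

/-- A sequence of cutoffs. -/
theorem cutoff (n : ℕ) : ∃ (χ : ℕ → E n → ℝ) (K : ℝ), 0 ≤ K ∧ ∀ k, ContDiff ℝ ∞ (χ k) ∧
    HasCompactSupport (χ k) ∧ (∀ x, 0 ≤ χ k x ∧ χ k x ≤ 1) ∧
    (∀ x, ‖fderiv ℝ (χ k) x‖ ^ 2 * D x ≤ K) ∧
    ∀ x, ‖x‖ < k → χ k =ᶠ[𝓝 x] 1 := by
  let f : ContDiffBump (0 : E n) := ⟨1, 2, one_pos, one_lt_two⟩
  have hf : ContDiff ℝ ∞ f := f.contDiff
  have hfc : Continuous (fderiv ℝ f) := (f.contDiff (n := 1)).continuous_fderiv one_ne_zero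
  have hfs : HasCompactSupport (fderiv ℝ f) := f.hasCompactSupport.fderiv ℝ
  obtain ⟨K', hK'⟩ := hfc.bounded_above_of_compact_support hfs
  refine ⟨fun k x => f (((k : ℝ) + 1)⁻¹ • x), 5 * K' ^ 2, by positivity, fun k => ?_⟩
  have hk : (0 : ℝ) < (k : ℝ) + 1 := by positivity
  have hk1 : (0 : ℝ) < ((k : ℝ) + 1)⁻¹ := by positivity
  refine ⟨hf.comp (contDiff_const_smul _), ?_, fun x => ⟨f.nonneg, f.le_one⟩, ?_, ?_⟩
  · exact f.hasCompactSupport.comp_smul hk1.ne'
  · intro x
    have hd : fderiv ℝ (fun x : E n => f (((k : ℝ) + 1)⁻¹ • x)) x =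
        ((k : ℝ) + 1)⁻¹ • fderiv ℝ f (((k : ℝ) + 1)⁻¹ • x) := by
      have h1 : HasFDerivAt (fun x : E n => ((k : ℝ) + 1)⁻¹ • x)
          (((k : ℝ) + 1)⁻¹ • ContinuousLinearMap.id ℝ (E n)) x :=
        (((k : ℝ) + 1)⁻¹ • ContinuousLinearMap.id ℝ (E n)).hasFDerivAt
      have h2 := (((f.contDiff (n := 1)).differentiable one_ne_zero)
        (((k : ℝ) + 1)⁻¹ • x)).hasFDerivAt
      have h3 := h2.comp x h1
      rw [show (fun x : E n => f (((k : ℝ) + 1)⁻¹ • x)) = (f ∘ fun x : E n => ((k : ℝ) + 1)⁻¹ • x)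
        from rfl, h3.fderiv]
      ext v
      simp
    rw [hd, norm_smul, Real.norm_eq_abs, abs_of_pos hk1]
    by_cases hx : ‖x‖ ≤ 2 * ((k : ℝ) + 1)
    · have hD : D x ≤ 5 * ((k : ℝ) + 1) ^ 2 := by
        unfold D
        nlinarith [norm_nonneg x]
      have h4 := hK' (((k : ℝ) + 1)⁻¹ • x)
      calc (((k : ℝ) + 1)⁻¹ * ‖fderiv ℝ f (((k : ℝ) + 1)⁻¹ • x)‖) ^ 2 * D x
          ≤ (((k : ℝ) + 1)⁻¹ * K') ^ 2 * (5 * ((k : ℝ) + 1) ^ 2) := by
            apply mul_le_mul _ hD (D_pos x).le (by positivity)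
            apply pow_le_pow_left₀ (by positivity)
            exact mul_le_mul_of_nonneg_left h4 hk1.le
        _ = 5 * K' ^ 2 := by
            field_simp
    · have hz : fderiv ℝ f (((k : ℝ) + 1)⁻¹ • x) = 0 := by
        apply image_eq_zero_of_notMem_tsupport
        intro hmem
        have h5 := tsupport_fderiv_subset ℝ (f := f) hmem
        rw [f.tsupport_eq, mem_closedBall_zero_iff, norm_smul, Real.norm_eq_abs,
          abs_of_pos hk1, inv_mul_le_iff₀ hk] at h5
        apply hx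
        have : f.rOut = 2 := rfl
        rw [this] at h5
        linarith
      rw [hz, norm_zero, mul_zero]
      simp only [ne_eq, OfNat.ofNat_ne_zero, not_false_eq_true, zero_pow, zero_mul]
      positivity
  · intro x hx
    have h6 : ((k : ℝ) + 1)⁻¹ • x ∈ Metric.ball (0 : E n) f.rIn := by
      rw [mem_ball_zero_iff, norm_smul, Real.norm_eq_abs, abs_of_pos hk1, inv_mul_lt_iff₀ hk]
      have : f.rIn = 1 := rfl
      rw [this]
      linarith
    have h7 := f.eventuallyEq_one_of_mem_ball h6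
    exact (continuous_const_smul (((k : ℝ) + 1)⁻¹)).continuousAt.eventually h7

theorem tendsto_integral_cutoff {χ : ℕ → E n → ℝ} (hχ : ∀ k, Continuous (χ k))
    (h1 : ∀ k x, 0 ≤ χ k x ∧ χ k x ≤ 1) (h2 : ∀ (k : ℕ) (x : E n), ‖x‖ < k → χ k =ᶠ[𝓝 x] 1)
    (G : E n → ℝ) (hG : Integrable G) :
    Tendsto (fun k => ∫ x, χ k x * G x) atTop (𝓝 (∫ x, G x)) := by
  refine tendsto_integral_of_dominated_convergence (fun x => ‖G x‖) ?_ hG.norm ?_ ?_
  · intro k
    exact (hχ k).aestronglyMeasurable.mul hG.aestronglyMeasurable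
  · intro k
    refine Eventually.of_forall fun x => ?_
    rw [norm_mul, Real.norm_eq_abs, abs_of_nonneg (h1 k x).1]
    exact mul_le_of_le_one_left (norm_nonneg _) (h1 k x).2
  · refine Eventually.of_forall fun x => ?_
    refine tendsto_const_nhds.congr' ?_
    obtain ⟨N, hN⟩ := exists_nat_gt ‖x‖
    filter_upwards [eventually_ge_atTop N] with k hk
    have h3 : ‖x‖ < k := hN.trans_le (by exact_mod_cast hk)
    have h4 := (h2 k x h3).self_of_nhds
    rw [h4]
    simp

/-- Euler identity for integrable functions. -/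
theorem euler' (G : E n → ℝ) (hG : ContDiff ℝ 1 G) (h1 : Integrable G)
    (h2 : Integrable fun x => fderiv ℝ G x x) :
    ∫ x, fderiv ℝ G x x = -(n : ℝ) * ∫ x, G x := by
  obtain ⟨χ, K, hK0, hχ⟩ := cutoff n
  have hχc : ∀ k, Continuous (χ k) := fun k => (hχ k).1.continuous
  have hχ1 : ∀ k, ContDiff ℝ 1 (χ k) := fun k => (hχ k).1.of_le (by exact_mod_cast le_top)
  have hchi01 := fun k => (hχ k).2.2.1
  have hloc := fun k => (hχ k).2.2.2.2
  have t1 := tendsto_integral_cutoff hχc hchi01 hloc G h1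
  have t2 := tendsto_integral_cutoff hχc hchi01 hloc _ h2
  have t3 : Tendsto (fun k => ∫ x, G x * fderiv ℝ (χ k) x x) atTop (𝓝 0) := by
    have h0 : (0 : ℝ) = ∫ x : E n, (0 : ℝ) := by simp
    rw [h0]
    refine tendsto_integral_of_dominated_convergence (fun x => Real.sqrt K * ‖G x‖) ?_
      (h1.norm.const_mul _) ?_ ?_
    · intro k
      refine Continuous.aestronglyMeasurable ?_
      exact hG.continuous.mul (((hχ1 k).continuous_fderiv one_ne_zero).clm_apply continuous_id)
    · intro k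
      refine Eventually.of_forall fun x => ?_
      rw [norm_mul, mul_comm]
      refine mul_le_mul_of_nonneg_right ?_ (norm_nonneg _)
      apply Real.le_sqrt_of_sq_le
      have h3 : ‖fderiv ℝ (χ k) x x‖ ≤ ‖fderiv ℝ (χ k) x‖ * ‖x‖ := (fderiv ℝ (χ k) x).le_opNorm x
      calc ‖fderiv ℝ (χ k) x x‖ ^ 2 ≤ (‖fderiv ℝ (χ k) x‖ * ‖x‖) ^ 2 :=
            pow_le_pow_left₀ (norm_nonneg _) h3 2
        _ = ‖fderiv ℝ (χ k) x‖ ^ 2 * ‖x‖ ^ 2 := by ring
        _ ≤ ‖fderiv ℝ (χ k) x‖ ^ 2 * D x := by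
            apply mul_le_mul_of_nonneg_left _ (by positivity)
            unfold D; linarith
        _ ≤ K := (hχ k).2.2.2.1 x
    · refine Eventually.of_forall fun x => ?_
      refine tendsto_const_nhds.congr' ?_
      obtain ⟨N, hN⟩ := exists_nat_gt ‖x‖
      filter_upwards [eventually_ge_atTop N] with k hk
      have h3 : ‖x‖ < k := hN.trans_le (by exact_mod_cast hk)
      have h4 : fderiv ℝ (χ k) x = fderiv ℝ (fun _ : E n => (1 : ℝ)) x := (hloc k x h3).fderiv_eq
      rw [h4]
      simp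
  have e : ∀ k, (∫ x, χ k x * fderiv ℝ G x x) + ∫ x, G x * fderiv ℝ (χ k) x x =
      -(n : ℝ) * ∫ x, χ k x * G x := by
    intro k
    have h5 := euler (fun x => χ k x * G x) ((hχ1 k).mul hG) ((hχ k).2.1.mul_right)
    have j1 : Integrable (fun x : E n => χ k x * fderiv ℝ G x x) := by
      refine Continuous.integrable_of_hasCompactSupport ?_ ((hχ k).2.1.mul_right)
      exact (hχc k).mul ((hG.continuous_fderiv one_ne_zero).clm_apply continuous_id)
    have j2 : Integrable (fun x : E n => G x * fderiv ℝ (χ k) x x) := by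
      refine Continuous.integrable_of_hasCompactSupport ?_ ?_
      · exact hG.continuous.mul (((hχ1 k).continuous_fderiv one_ne_zero).clm_apply continuous_id)
      · refine HasCompactSupport.mul_left ?_
        refine HasCompactSupport.intro ((hχ k).2.1.fderiv ℝ) fun x hx => ?_
        rw [image_eq_zero_of_notMem_tsupport hx]
        rfl
    rw [← h5, ← integral_add j1 j2]
    apply integral_congr_ae
    refine Eventually.of_forall fun x => ?_
    have h6 := (((hχ1 k).differentiable one_ne_zero) x).hasFDerivAt.mul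
      ((hG.differentiable one_ne_zero) x).hasFDerivAt
    have h7 : fderiv ℝ (fun x => χ k x * G x) x = _ := h6.fderiv
    simp only
    rw [h7]
    simp only [add_apply, smul_apply, smul_eq_mul]
  have t4 := t2.add t3
  have t5 : Tendsto (fun k => -(n : ℝ) * ∫ x, χ k x * G x) atTop (𝓝 (-(n : ℝ) * ∫ x, G x)) :=
    t1.const_mul _
  simp only [e] at t4
  have := tendsto_nhds_unique t4 t5
  linarith

/-- The integral of `D^p`. -/
noncomputable def I (n : ℕ) (p : ℝ) : ℝ := ∫ x : E n, D x ^ p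

theorem I_pos {p : ℝ} (hp : p < -(n : ℝ) / 2) : 0 < I n p := by
  unfold I
  rw [integral_pos_iff_support_of_nonneg (fun x => (Real.rpow_pos_of_pos (D_pos x) p).le)
    (Dpow_integrable hp)]
  have : Function.support (fun x : E n => D x ^ p) = univ := by
    ext x
    simp [(Real.rpow_pos_of_pos (D_pos x) p).ne']
  rw [this]
  exact Measure.measure_univ_pos.2 (NeZero.ne _)

theorem normsq_Dpow_integrable {p : ℝ} (hp : p < -(n : ℝ) / 2) :
    Integrable (fun x : E n => ‖x‖ ^ 2 * D x ^ (p - 1)) := by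
  refine (Dpow_integrable hp).mono' ?_ ?_
  · exact ((continuous_norm.pow 2).mul (Dpow_cont _)).aestronglyMeasurable
  · refine Eventually.of_forall fun x => ?_
    have hD := D_pos x
    rw [Real.norm_eq_abs, abs_of_nonneg (by positivity)]
    have e1 : D x ^ p = D x * D x ^ (p - 1) := by
      rw [mul_comm, ← Real.rpow_add_one hD.ne']; congr 1; ring
    rw [e1]
    apply mul_le_mul_of_nonneg_right _ (by positivity)
    unfold D; linarith

theorem J_eq {p : ℝ} (hp : p < -(n : ℝ) / 2) :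
    -(2 * p) * ∫ x : E n, ‖x‖ ^ 2 * D x ^ (p - 1) = n * I n p := by
  have h1 : ∀ x : E n, fderiv ℝ (fun x : E n => D x ^ p) x x =
      2 * p * (‖x‖ ^ 2 * D x ^ (p - 1)) := by
    intro x
    rw [(Dpow_hasFDerivAt p x).fderiv]
    simp only [smul_apply, smul_eq_mul,
      nsmul_eq_mul, innerSL_apply_apply, real_inner_self_eq_norm_sq]
    push_cast
    ring
  have h2 := euler' (fun x : E n => D x ^ p) (Dpow_contDiff p) (Dpow_integrable hp) (by
    simp only [h1]
    exact (normsq_Dpow_integrable hp).const_mul _)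
  simp only [h1] at h2
  rw [integral_const_mul] at h2
  unfold I
  linarith

theorem I_rec {p : ℝ} (hp : p < -(n : ℝ) / 2) :
    -(2 * p) * I n (p - 1) = (-(2 * p) - n) * I n p := by
  have h1 := J_eq hp
  have h2 : I n p = I n (p - 1) + ∫ x : E n, ‖x‖ ^ 2 * D x ^ (p - 1) := by
    unfold I
    rw [← integral_add (Dpow_integrable (by linarith)) (normsq_Dpow_integrable hp)]
    apply integral_congr_ae
    refine Eventually.of_forall fun x => ?_
    have hD := D_pos x
    have e1 : D x ^ p = D x * D x ^ (p - 1) := by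
      rw [mul_comm, ← Real.rpow_add_one hD.ne']; congr 1; ring
    simp only
    rw [e1]
    unfold D
    ring
  have h3 : ∫ x : E n, ‖x‖ ^ 2 * D x ^ (p - 1) = I n p - I n (p - 1) := by linarith
  rw [h3] at h1
  linarith

end Pool.Agent.W773.Hardy
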