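import Mathlib
import Pool.Agent.W773.Hardy.A2

set_option autoImplicit false
open MeasureTheory Set Filter Topology
open scoped RealInnerProductSpace ContDiff

namespace Pool.Agent.W773.Hardy

variable {n : ℕ}

/-- A sequence of cutoffs. -/
structure Cut (χ : ℕ → E n → ℝ) (K : ℝ) : Prop where
  sm : ∀ k, ContDiff ℝ ∞ (χ k)
  cs : ∀ k, HasCompactSupport (χ k)
  r01 : ∀ k x, 0 ≤ χ k x ∧ χ k x ≤ 1
  gr : ∀ k x, ‖fderiv ℝ (χ k) x‖ ^ 2 * D x ≤ K
  loc : ∀ (k : ℕ) x, ‖x‖ < k → χ k =ᶠ[𝓝 x] 1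
  K0 : 0 ≤ K

theorem exists_cut (n : ℕ) : ∃ (χ : ℕ → E n → ℝ) (K : ℝ), Cut χ K := by
  obtain ⟨χ, K, hK0, hχ⟩ := cutoff n
  exact ⟨χ, K, fun k => (hχ k).1, fun k => (hχ k).2.1, fun k => (hχ k).2.2.1,
    fun k => (hχ k).2.2.2.1, fun k => (hχ k).2.2.2.2, hK0⟩

theorem approx0 {α : ℝ} {w : E n → ℝ} (hw : ContDiff ℝ ∞ w)
    (h1 : Integrable (fun x => D x ^ (α - 1) * w x ^ 2))
    (h2 : Integrable (fun x => D x ^ α * ‖fderiv ℝ w x‖ ^ 2))
    {χ : ℕ → E n → ℝ} {K : ℝ} (hχ : Cut χ K) (c : ℕ → ℝ) (hc : Tendsto c atTop (𝓝 0))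
    (B : E n → ℝ) (hB : Integrable B) (hcB : ∀ k x, c k ^ 2 * D x ^ (α - 1) ≤ B x) :
    Tendsto (fun k => num α (fun x => χ k x * (w x - c k))) atTop (𝓝 (num α w)) ∧
    Tendsto (fun k => den α (fun x => χ k x * (w x - c k))) atTop (𝓝 (den α w)) := by
  have hw1 : ContDiff ℝ 1 w := hw.of_le (by exact_mod_cast le_top)
  have hχ1 : ∀ k, ContDiff ℝ 1 (χ k) := fun k => (hχ.sm k).of_le (by exact_mod_cast le_top)
  have hev : ∀ x : E n, ∀ᶠ k in atTop, χ k =ᶠ[𝓝 x] 1 := by
    intro x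
    obtain ⟨N, hN⟩ := exists_nat_gt ‖x‖
    filter_upwards [eventually_ge_atTop N] with k hk
    exact hχ.loc k x (hN.trans_le (by exact_mod_cast hk))
  constructor
  · unfold num
    refine tendsto_integral_of_dominated_convergence
      (fun x => 2 * (D x ^ α * ‖fderiv ℝ w x‖ ^ 2) +
        4 * K * (D x ^ (α - 1) * w x ^ 2 + B x)) ?_
      ((h2.const_mul 2).add ((h1.add hB).const_mul _)) ?_ ?_
    · intro k
      have hcd : ContDiff ℝ 1 (fun x => χ k x * (w x - c k)) := (hχ1 k).mul (hw1.sub contDiff_const)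
      exact ((Dpow_cont α).mul ((hcd.continuous_fderiv one_ne_zero).norm.pow 2)).aestronglyMeasurable
    · intro k
      refine Eventually.of_forall fun x => ?_
      have hD := D_pos x
      have hf : fderiv ℝ (fun x => χ k x * (w x - c k)) x =
          χ k x • fderiv ℝ w x + (w x - c k) • fderiv ℝ (χ k) x := by
        have h6 := (((hχ1 k).differentiable one_ne_zero) x).hasFDerivAt.mul
          (((hw1.differentiable one_ne_zero) x).hasFDerivAt.sub_const (c k))
        exact h6.fderiv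
      rw [hf, Real.norm_eq_abs, abs_of_nonneg (by positivity)]
      have hn : ‖χ k x • fderiv ℝ w x + (w x - c k) • fderiv ℝ (χ k) x‖ ^ 2 ≤
          2 * ‖fderiv ℝ w x‖ ^ 2 + 2 * (w x - c k) ^ 2 * ‖fderiv ℝ (χ k) x‖ ^ 2 := by
        have e1 := norm_add_le (χ k x • fderiv ℝ w x) ((w x - c k) • fderiv ℝ (χ k) x)
        rw [norm_smul, norm_smul, Real.norm_eq_abs, Real.norm_eq_abs,
          abs_of_nonneg (hχ.r01 k x).1] at e1
        have e2 : χ k x * ‖fderiv ℝ w x‖ ≤ ‖fderiv ℝ w x‖ :=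
          mul_le_of_le_one_left (norm_nonneg _) (hχ.r01 k x).2
        have e3 := norm_nonneg (χ k x • fderiv ℝ w x + (w x - c k) • fderiv ℝ (χ k) x)
        have e4 : (|w x - c k| * ‖fderiv ℝ (χ k) x‖) ^ 2 =
            (w x - c k) ^ 2 * ‖fderiv ℝ (χ k) x‖ ^ 2 := by rw [mul_pow, sq_abs]
        have e5 : ‖χ k x • fderiv ℝ w x + (w x - c k) • fderiv ℝ (χ k) x‖ ≤
          ‖fderiv ℝ w x‖ + |w x - c k| * ‖fderiv ℝ (χ k) x‖ := by linarith
        have e6 := pow_le_pow_left₀ e3 e5 2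
        nlinarith [sq_nonneg (‖fderiv ℝ w x‖ - |w x - c k| * ‖fderiv ℝ (χ k) x‖)]
      have hP : 0 < D x ^ (α - 1) := Real.rpow_pos_of_pos hD _
      have e7 : D x ^ α = D x ^ (α - 1) * D x := by
        rw [← Real.rpow_add_one hD.ne']; congr 1; ring
      have hg := hχ.gr k x
      have hsq : (w x - c k) ^ 2 ≤ 2 * w x ^ 2 + 2 * c k ^ 2 := by
        nlinarith [sq_nonneg (w x + c k)]
      calc D x ^ α * ‖χ k x • fderiv ℝ w x + (w x - c k) • fderiv ℝ (χ k) x‖ ^ 2
          ≤ D x ^ α * (2 * ‖fderiv ℝ w x‖ ^ 2 + 2 * (w x - c k) ^ 2 * ‖fderiv ℝ (χ k) x‖ ^ 2) :=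
            mul_le_mul_of_nonneg_left hn (by positivity)
        _ = 2 * (D x ^ α * ‖fderiv ℝ w x‖ ^ 2) +
            2 * (w x - c k) ^ 2 * D x ^ (α - 1) * (‖fderiv ℝ (χ k) x‖ ^ 2 * D x) := by
            rw [e7]; ring
        _ ≤ 2 * (D x ^ α * ‖fderiv ℝ w x‖ ^ 2) +
            2 * (w x - c k) ^ 2 * D x ^ (α - 1) * K := by
            have := mul_le_mul_of_nonneg_left hg
              (by positivity : 0 ≤ 2 * (w x - c k) ^ 2 * D x ^ (α - 1))
            linarith
        _ ≤ 2 * (D x ^ α * ‖fderiv ℝ w x‖ ^ 2) +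
            2 * (2 * w x ^ 2 + 2 * c k ^ 2) * D x ^ (α - 1) * K := by
            have h8 : 2 * (w x - c k) ^ 2 * D x ^ (α - 1) * K ≤
                2 * (2 * w x ^ 2 + 2 * c k ^ 2) * D x ^ (α - 1) * K := by
              apply mul_le_mul_of_nonneg_right _ hχ.K0
              apply mul_le_mul_of_nonneg_right _ hP.le
              linarith
            linarith
        _ = 2 * (D x ^ α * ‖fderiv ℝ w x‖ ^ 2) +
            4 * K * (D x ^ (α - 1) * w x ^ 2 + c k ^ 2 * D x ^ (α - 1)) := by ring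
        _ ≤ _ := by
            have h9 := mul_le_mul_of_nonneg_left (hcB k x)
              (mul_nonneg (by norm_num : (0:ℝ) ≤ 4) hχ.K0)
            linarith
    · refine Eventually.of_forall fun x => ?_
      refine tendsto_const_nhds.congr' ?_
      filter_upwards [hev x] with k hk
      have h4 : fderiv ℝ (fun x => χ k x * (w x - c k)) x = fderiv ℝ w x := by
        have h5 : (fun x => χ k x * (w x - c k)) =ᶠ[𝓝 x] fun x => w x - c k := by
          filter_upwards [hk] with y hy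
          rw [hy]; simp
        rw [h5.fderiv_eq, fderiv_sub_const]
      rw [h4]
  · unfold den
    refine tendsto_integral_of_dominated_convergence
      (fun x => 2 * (D x ^ (α - 1) * w x ^ 2 + B x)) ?_
      ((h1.add hB).const_mul _) ?_ ?_
    · intro k
      have hcd : ContDiff ℝ 1 (fun x => χ k x * (w x - c k)) := (hχ1 k).mul (hw1.sub contDiff_const)
      exact ((Dpow_cont _).mul (hcd.continuous.pow 2)).aestronglyMeasurable
    · intro k
      refine Eventually.of_forall fun x => ?_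
      have hD := D_pos x
      have hP : 0 < D x ^ (α - 1) := Real.rpow_pos_of_pos hD _
      rw [Real.norm_eq_abs, abs_of_nonneg (by positivity)]
      have h01 := hχ.r01 k x
      have h3 : (χ k x * (w x - c k)) ^ 2 ≤ 2 * w x ^ 2 + 2 * c k ^ 2 := by
        have h4 : (χ k x * (w x - c k)) ^ 2 ≤ (w x - c k) ^ 2 := by
          rw [mul_pow]
          apply mul_le_of_le_one_left (sq_nonneg _)
          nlinarith [h01.1, h01.2]
        nlinarith [sq_nonneg (w x + c k)]
      have h5 := mul_le_mul_of_nonneg_left h3 hP.le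
      have h6 := hcB k x
      linarith
    · refine Eventually.of_forall fun x => ?_
      have h7 : Tendsto (fun k => D x ^ (α - 1) * (w x - c k) ^ 2) atTop
          (𝓝 (D x ^ (α - 1) * (w x - 0) ^ 2)) :=
        ((tendsto_const_nhds.sub hc).pow 2).const_mul _
      rw [sub_zero] at h7
      refine h7.congr' ?_
      filter_upwards [hev x] with k hk
      rw [hk.self_of_nhds]
      simp

/-- admissible functions -/
def Adm (α : ℝ) (u : E n → ℝ) : Prop :=
  ContDiff ℝ ∞ u ∧ HasCompactSupport u ∧ u ≠ 0 ∧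
    (α < -((n : ℝ) - 2) / 2 → ∫ x, D x ^ (α - 1) * u x = 0)

theorem approx {α c : ℝ} {w : E n → ℝ} (hw : ContDiff ℝ ∞ w)
    (h1 : Integrable (fun x => D x ^ (α - 1) * w x ^ 2))
    (h2 : Integrable (fun x => D x ^ α * ‖fderiv ℝ w x‖ ^ 2))
    (h3 : α < -((n : ℝ) - 2) / 2 → Integrable (fun x => D x ^ (α - 1) * w x) ∧
      ∫ x, D x ^ (α - 1) * w x = 0)
    (hlow : ∀ u : E n → ℝ, Adm α u → c * den α u ≤ num α u) :
    c * den α w ≤ num α w := by
  obtain ⟨χ, K, hχ⟩ := exists_cut n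
  have hw1 : ContDiff ℝ 1 w := hw.of_le (by exact_mod_cast le_top)
  suffices h : ∃ (b : ℕ → ℝ) (B : E n → ℝ), Tendsto b atTop (𝓝 0) ∧ Integrable B ∧
      (∀ k x, b k ^ 2 * D x ^ (α - 1) ≤ B x) ∧ ∀ᶠ k in atTop, (α < -((n : ℝ) - 2) / 2 →
        ∫ x, D x ^ (α - 1) * (χ k x * (w x - b k)) = 0) by
    obtain ⟨b, B, hb, hB, hbB, hz⟩ := h
    obtain ⟨t1, t2⟩ := approx0 hw h1 h2 hχ b hb B hB hbB
    refine le_of_tendsto_of_tendsto (t2.const_mul c) t1 ?_
    filter_upwards [hz] with k hk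
    by_cases h0 : (fun x => χ k x * (w x - b k)) = 0
    · rw [h0]
      simp [num, den]
    · exact hlow _ ⟨(hχ.sm k).mul (hw.sub contDiff_const), (hχ.cs k).mul_right, h0, hk⟩
  by_cases hα : α < -((n : ℝ) - 2) / 2
  · obtain ⟨i1, i2⟩ := h3 hα
    have iD : Integrable (fun x : E n => D x ^ (α - 1)) := Dpow_integrable (by linarith)
    have hpos : 0 < I n (α - 1) := I_pos (by linarith)
    have t1 := tendsto_integral_cutoff (fun k => (hχ.sm k).continuous) hχ.r01 hχ.loc _ i1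
    have t2 := tendsto_integral_cutoff (fun k => (hχ.sm k).continuous) hχ.r01 hχ.loc _ iD
    rw [i2] at t1
    have t3 : Tendsto (fun k => (∫ x, χ k x * (D x ^ (α - 1) * w x)) /
        ∫ x, χ k x * D x ^ (α - 1)) atTop (𝓝 0) := by
      have := t1.div t2 hpos.ne'
      rwa [zero_div] at this
    obtain ⟨M, hM⟩ := t3.norm.bddAbove_range
    refine ⟨_, fun x => M ^ 2 * D x ^ (α - 1), t3, iD.const_mul _, ?_, ?_⟩
    · intro k x
      apply mul_le_mul_of_nonneg_right _ (Real.rpow_pos_of_pos (D_pos x) _).le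
      have h4 := hM (mem_range_self k)
      simp only [Real.norm_eq_abs] at h4
      rw [← sq_abs]
      exact pow_le_pow_left₀ (abs_nonneg _) h4 2
    · have h5 : ∀ᶠ k in atTop, 0 < ∫ x, χ k x * D x ^ (α - 1) := t2.eventually (lt_mem_nhds hpos)
      filter_upwards [h5] with k hk _
      set b := (∫ x, χ k x * (D x ^ (α - 1) * w x)) / ∫ x, χ k x * D x ^ (α - 1) with hb
      have e1 : ∀ x : E n, D x ^ (α - 1) * (χ k x * (w x - b)) =
          χ k x * (D x ^ (α - 1) * w x) - b * (χ k x * D x ^ (α - 1)) := by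
        intro x; ring
      have j1 : Integrable fun x : E n => χ k x * (D x ^ (α - 1) * w x) := by
        refine Continuous.integrable_of_hasCompactSupport ?_ ((hχ.cs k).mul_right)
        exact (hχ.sm k).continuous.mul ((Dpow_cont _).mul hw1.continuous)
      have j2 : Integrable fun x : E n => χ k x * D x ^ (α - 1) := by
        refine Continuous.integrable_of_hasCompactSupport ?_ ((hχ.cs k).mul_right)
        exact (hχ.sm k).continuous.mul (Dpow_cont _)
      simp only [e1]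
      rw [integral_sub j1 (j2.const_mul _), integral_const_mul, hb, div_mul_cancel₀ _ hk.ne',
        sub_self]
  · refine ⟨fun _ => 0, fun _ => 0, tendsto_const_nhds, integrable_zero _ _ _, ?_, ?_⟩
    · intro k x
      simp
    · exact Eventually.of_forall fun k h => absurd h hα

end Pool.Agent.W773.Hardy
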