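import Mathlib
import Pool.Agent.W773.Hardy.A3

set_option autoImplicit false
open MeasureTheory Set Filter Topology
open scoped RealInnerProductSpace ContDiff

namespace Pool.Agent.W773.Hardy

variable {n : ℕ}

theorem le_of_right_limit {f g : ℝ → ℝ} {a b : ℝ} (hab : a < b) (hf : ContinuousAt f a)
    (hg : ContinuousAt g a) (h : ∀ x, a < x → x < b → f x ≤ g x) : f a ≤ g a := by
  have h1 : Tendsto f (𝓝[>] a) (𝓝 (f a)) := hf.tendsto.mono_left nhdsWithin_le_nhds
  have h2 : Tendsto g (𝓝[>] a) (𝓝 (g a)) := hg.tendsto.mono_left nhdsWithin_le_nhds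
  refine le_of_tendsto_of_tendsto h1 h2 ?_
  filter_upwards [Ioo_mem_nhdsGT hab] with x hx
  exact h x hx.1 hx.2

theorem fderiv_Dpow_norm (s : ℝ) (x : E n) :
    ‖fderiv ℝ (fun x : E n => D x ^ s) x‖ ^ 2 = 4 * s ^ 2 * (‖x‖ ^ 2 * D x ^ (2 * s - 2)) := by
  rw [(Dpow_hasFDerivAt s x).fderiv, norm_smul, Real.norm_eq_abs, mul_pow, sq_abs]
  have h1 : ‖(2 : ℕ) • (innerSL ℝ x)‖ = 2 * ‖x‖ := by
    rw [← Nat.cast_smul_eq_nsmul ℝ, norm_smul, innerSL_apply_norm]
    simp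
  rw [h1]
  have hD := D_pos x
  have h2 : D x ^ (2 * s - 2) = (D x ^ (s - 1)) ^ 2 := by
    rw [← Real.rpow_natCast, ← Real.rpow_mul hD.le]; congr 1; push_cast; ring
  rw [h2]
  ring

theorem num_Dpow (α s : ℝ) : num α (fun x : E n => D x ^ s) =
    4 * s ^ 2 * ∫ x : E n, ‖x‖ ^ 2 * D x ^ (α - 1 + 2 * s - 1) := by
  unfold num
  rw [← integral_const_mul]
  apply integral_congr_ae
  refine Eventually.of_forall fun x => ?_
  simp only
  rw [fderiv_Dpow_norm]
  have hD := D_pos x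
  have h2 : D x ^ (α - 1 + 2 * s - 1) = D x ^ α * D x ^ (2 * s - 2) := by
    rw [← Real.rpow_add hD]; congr 1; ring
  rw [h2]
  ring

theorem num_Dpow_int {α s : ℝ} (hs : α - 1 + 2 * s < -(n : ℝ) / 2) :
    Integrable (fun x : E n => D x ^ α * ‖fderiv ℝ (fun x : E n => D x ^ s) x‖ ^ 2) := by
  have := (normsq_Dpow_integrable hs).const_mul (4 * s ^ 2)
  refine this.congr (Eventually.of_forall fun x => ?_)
  simp only
  rw [fderiv_Dpow_norm]
  have hD := D_pos x
  have h2 : D x ^ (α - 1 + 2 * s - 1) = D x ^ α * D x ^ (2 * s - 2) := by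
    rw [← Real.rpow_add hD]; congr 1; ring
  rw [h2]
  ring

theorem den_pt (α s : ℝ) (x : E n) :
    D x ^ (α - 1) * (D x ^ s) ^ 2 = D x ^ (α - 1 + 2 * s) := by
  have hD := D_pos x
  rw [← Real.rpow_natCast, ← Real.rpow_mul hD.le, ← Real.rpow_add hD]
  congr 1
  push_cast
  ring

theorem upper1 {α γ c : ℝ} (hα : ¬ α < -((n : ℝ) - 2) / 2) (hγ : (n : ℝ) / 2 + α - 1 < 2 * γ)
    (hlow : ∀ u : E n → ℝ, Adm α u → c * den α u ≤ num α u) :
    c * (2 * γ + 1 - α) ≤ 2 * n * γ ^ 2 := by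
  have hp : α - 1 + 2 * (-γ) < -(n : ℝ) / 2 := by linarith
  have h := approx (c := c) (w := fun x : E n => D x ^ (-γ)) (Dpow_contDiff _)
    (by simp only [den_pt]; exact Dpow_integrable hp) (num_Dpow_int hp)
    (fun h => absurd h hα) hlow
  rw [num_Dpow] at h
  have hd : den α (fun x : E n => D x ^ (-γ)) = I n (α - 1 + 2 * (-γ)) := by
    unfold den I
    simp only [den_pt]
  rw [hd] at h
  have hI := I_pos hp
  have hJ := J_eq hp
  set J := ∫ x : E n, ‖x‖ ^ 2 * D x ^ (α - 1 + 2 * (-γ) - 1)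
  set II := I n (α - 1 + 2 * (-γ))
  have hpp : 0 < -(2 * (α - 1 + 2 * (-γ))) := by
    have : (0 : ℝ) ≤ n := Nat.cast_nonneg n
    linarith
  have h1 := mul_le_mul_of_nonneg_left h hpp.le
  have h2 : -(2 * (α - 1 + 2 * (-γ))) * (4 * (-γ) ^ 2 * J) = 4 * γ ^ 2 * (n * II) := by
    rw [← hJ]; ring
  rw [h2] at h1
  have h3 : (c * (2 * γ + 1 - α)) * II ≤ (2 * n * γ ^ 2) * II := by nlinarith
  exact le_of_mul_le_mul_right h3 hI

/-- `C ≤ κ²` in the unconstrained case. -/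
theorem upper_kappa {α c : ℝ} (hn : 1 ≤ n) (hα : ¬ α < -((n : ℝ) - 2) / 2)
    (hlow : ∀ u : E n → ℝ, Adm α u → c * den α u ≤ num α u) :
    c ≤ ((n : ℝ) + 2 * α - 2) ^ 2 / 4 := by
  have hn' : (1 : ℝ) ≤ n := by exact_mod_cast hn
  set κ : ℝ := (n : ℝ) / 2 + α - 1 with hκ
  have h := le_of_right_limit (f := fun γ => c * (2 * γ + 1 - α)) (g := fun γ => 2 * n * γ ^ 2)
    (a := κ / 2) (b := κ / 2 + 1) (by linarith) (by fun_prop) (by fun_prop)
    (fun γ h1 h2 => upper1 hα (by linarith) hlow)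
  have e1 : 2 * (κ / 2) + 1 - α = n / 2 := by rw [hκ]; ring
  simp only [e1] at h
  have e2 : ((n : ℝ) + 2 * α - 2) ^ 2 / 4 = κ ^ 2 := by rw [hκ]; ring
  rw [e2]
  nlinarith

/-- `C ≤ 2n(α-1)` in the unconstrained case. -/
theorem upper_lin {α c : ℝ} (hn : 1 ≤ n) (hα : ((n : ℝ) + 2) / 2 < α)
    (hlow : ∀ u : E n → ℝ, Adm α u → c * den α u ≤ num α u) :
    c ≤ 2 * n * (α - 1) := by
  have hn' : (1 : ℝ) ≤ n := by exact_mod_cast hn
  have h := upper1 (γ := α - 1) (by linarith) (by linarith) hlow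
  have h1 : 0 < α - 1 := by linarith
  have h2 : c * (α - 1) ≤ (2 * n * (α - 1)) * (α - 1) := by nlinarith
  exact le_of_mul_le_mul_right h2 h1

theorem upper2 {α s c : ℝ} (hα : α < -((n : ℝ) - 2) / 2) (hs : α - 1 + 2 * s < -(n : ℝ) / 2)
    (hlow : ∀ u : E n → ℝ, Adm α u → c * den α u ≤ num α u) :
    c * (I n (α - 1 + 2 * s) * I n (α - 1) - I n (α - 1 + s) ^ 2) * (-(2 * (α - 1 + 2 * s))) ≤
      4 * s ^ 2 * n * I n (α - 1 + 2 * s) * I n (α - 1) := by
  have h0 : α - 1 < -(n : ℝ) / 2 := by linarith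
  have h1 : α - 1 + s < -(n : ℝ) / 2 := by linarith
  set m : ℝ := I n (α - 1 + s) / I n (α - 1) with hm
  have hI0 := I_pos h0
  have hI := I_pos hs
  have i0 := Dpow_integrable h0
  have i1 := Dpow_integrable h1
  have i2 := Dpow_integrable hs
  have ept : ∀ x : E n, D x ^ (α - 1) * (D x ^ s - m) ^ 2 =
      D x ^ (α - 1 + 2 * s) - 2 * m * D x ^ (α - 1 + s) + m ^ 2 * D x ^ (α - 1) := by
    intro x
    rw [← den_pt, Real.rpow_add (D_pos x)]
    ring
  have ept1 : ∀ x : E n, D x ^ (α - 1) * (D x ^ s - m) =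
      D x ^ (α - 1 + s) - m * D x ^ (α - 1) := by
    intro x
    rw [Real.rpow_add (D_pos x)]
    ring
  have hfd : ∀ x : E n, fderiv ℝ (fun x : E n => D x ^ s - m) x =
      fderiv ℝ (fun x : E n => D x ^ s) x := fun x => by rw [fderiv_sub_const]
  have iden : Integrable fun x : E n => D x ^ (α - 1) * (D x ^ s - m) ^ 2 := by
    simp only [ept]
    exact (i2.sub (i1.const_mul _)).add (i0.const_mul _)
  have h := approx (c := c) (w := fun x : E n => D x ^ s - m) ((Dpow_contDiff _).sub contDiff_const)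
    iden (by simp only [hfd]; exact num_Dpow_int hs) (fun _ => ⟨by
        simp only [ept1]
        exact i1.sub (i0.const_mul _), by
        simp only [ept1]
        rw [integral_sub i1 (i0.const_mul _), integral_const_mul]
        change I n (α - 1 + s) - m * I n (α - 1) = 0
        rw [hm]
        field_simp
        ring⟩) hlow
  have hnum : num α (fun x : E n => D x ^ s - m) = num α (fun x : E n => D x ^ s) := by
    unfold num
    simp only [hfd]
  have hden : den α (fun x : E n => D x ^ s - m) =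
      I n (α - 1 + 2 * s) - I n (α - 1 + s) ^ 2 / I n (α - 1) := by
    unfold den
    simp only [ept]
    have e1 : Integrable fun x : E n => D x ^ (α - 1 + 2 * s) - 2 * m * D x ^ (α - 1 + s) :=
      i2.sub (i1.const_mul _)
    rw [integral_add e1 (i0.const_mul _), integral_sub i2 (i1.const_mul _), integral_const_mul,
      integral_const_mul]
    change I n (α - 1 + 2 * s) - 2 * m * I n (α - 1 + s) + m ^ 2 * I n (α - 1) = _
    rw [hm]
    field_simp
    ring
  rw [hnum, hden, num_Dpow] at h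
  have hJ := J_eq hs
  set J := ∫ x : E n, ‖x‖ ^ 2 * D x ^ (α - 1 + 2 * s - 1)
  have hpp : 0 < -(2 * (α - 1 + 2 * s)) := by
    have : (0 : ℝ) ≤ n := Nat.cast_nonneg n
    linarith
  have h3 := mul_le_mul_of_nonneg_left h (mul_pos hI0 hpp).le
  have e3 : I n (α - 1) * -(2 * (α - 1 + 2 * s)) * (4 * s ^ 2 * J) =
      4 * s ^ 2 * n * I n (α - 1 + 2 * s) * I n (α - 1) := by
    have : I n (α - 1) * -(2 * (α - 1 + 2 * s)) * (4 * s ^ 2 * J) =
      I n (α - 1) * (4 * s ^ 2) * (-(2 * (α - 1 + 2 * s)) * J) := by ring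
    rw [this, hJ]; ring
  rw [e3] at h3
  refine le_trans (le_of_eq ?_) h3
  field_simp

theorem I_mono {p q : ℝ} (hpq : p ≤ q) (hq : q < -(n : ℝ) / 2) : I n p ≤ I n q := by
  unfold I
  refine integral_mono (Dpow_integrable (by linarith)) (Dpow_integrable hq) fun x => ?_
  exact Real.rpow_le_rpow_of_exponent_le (D_one_le x) hpq

/-- `C ≤ κ²` in the constrained case. -/
theorem upper_kappa' {α c : ℝ} (hn : 1 ≤ n) (hc : 0 ≤ c) (hα : α < -((n : ℝ) - 2) / 2)
    (hlow : ∀ u : E n → ℝ, Adm α u → c * den α u ≤ num α u) :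
    c ≤ ((n : ℝ) + 2 * α - 2) ^ 2 / 4 := by
  have hn' : (1 : ℝ) ≤ n := by exact_mod_cast hn
  set κ : ℝ := -((n : ℝ) / 2 + α - 1) with hκ
  have hκ0 : 0 < κ := by rw [hκ]; linarith
  have hI0 : 0 < I n (α - 1) := I_pos (by linarith)
  have hI1 : 0 < I n (-(n : ℝ) / 2 - 2) := I_pos (by linarith)
  have hq : α - 1 + κ / 2 < -(n : ℝ) / 2 := by rw [hκ]; linarith
  set A : ℝ := I n (α - 1 + κ / 2) ^ 2 / (n * I n (-(n : ℝ) / 2 - 2) * I n (α - 1)) with hA
  have key : ∀ ε : ℝ, 0 < ε → ε < 1 → c * (n + 2 * ε) * (1 - 2 * A * ε) ≤ (κ - ε) ^ 2 * n := by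
    intro ε h0 h1
    have hs : α - 1 + 2 * ((κ - ε) / 2) < -(n : ℝ) / 2 := by rw [hκ]; linarith
    have h := upper2 hα hs hlow
    have ep : α - 1 + 2 * ((κ - ε) / 2) = -(n : ℝ) / 2 - ε := by rw [hκ]; ring
    rw [ep] at h hs
    have hIp := I_pos hs
    have hr := I_rec hs
    have hm1 : I n (-(n : ℝ) / 2 - 2) ≤ I n (-(n : ℝ) / 2 - ε - 1) :=
      I_mono (by linarith) (by linarith)
    have hm2 : I n (α - 1 + (κ - ε) / 2) ≤ I n (α - 1 + κ / 2) := I_mono (by linarith) hq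
    have hm3 : 0 < I n (α - 1 + (κ - ε) / 2) := I_pos (by linarith)
    set P := I n (-(n : ℝ) / 2 - ε)
    set Q := I n (-(n : ℝ) / 2 - ε - 1)
    set R := I n (α - 1 + (κ - ε) / 2)
    set S := I n (α - 1 + κ / 2)
    set T := I n (-(n : ℝ) / 2 - 2)
    set Z := I n (α - 1)
    -- S² ≤ 2 A ε P Z
    have hb : R ^ 2 ≤ 2 * A * ε * (P * Z) := by
      have h3 : n * T ≤ 2 * ε * P := by
        have h4 : (-(2 * (-(n : ℝ) / 2 - ε))) * Q = 2 * ε * P := by rw [hr]; ring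
        rw [← h4]
        have h5 : (n : ℝ) ≤ -(2 * (-(n : ℝ) / 2 - ε)) := by linarith
        exact mul_le_mul h5 hm1 hI1.le (by linarith)
      have h6 : R ^ 2 ≤ S ^ 2 := pow_le_pow_left₀ hm3.le hm2 2
      have h7 : A * (n * T * Z) = S ^ 2 := by
        rw [hA]; field_simp
      have hA0 : 0 ≤ A := by rw [hA]; positivity
      have h8 : A * (n * T * Z) ≤ A * (2 * ε * P * Z) := by
        apply mul_le_mul_of_nonneg_left _ hA0
        exact mul_le_mul_of_nonneg_right h3 hI0.le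
      nlinarith
    have h9 : c * (P * Z - 2 * A * ε * (P * Z)) * (n + 2 * ε) ≤
        c * (P * Z - R ^ 2) * -(2 * (-(n : ℝ) / 2 - ε)) := by
      have e1 : -(2 * (-(n : ℝ) / 2 - ε)) = n + 2 * ε := by ring
      rw [e1]
      apply mul_le_mul_of_nonneg_right _ (by positivity)
      apply mul_le_mul_of_nonneg_left _ hc
      linarith
    have h10 := h9.trans h
    have hPZ : 0 < P * Z := mul_pos hIp hI0
    have h11 : (c * (n + 2 * ε) * (1 - 2 * A * ε)) * (P * Z) ≤ ((κ - ε) ^ 2 * n) * (P * Z) := by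
      nlinarith
    exact le_of_mul_le_mul_right h11 hPZ
  have h := le_of_right_limit (f := fun ε => c * (n + 2 * ε) * (1 - 2 * A * ε))
    (g := fun ε => (κ - ε) ^ 2 * n) (a := 0) (b := 1) (by norm_num) (by fun_prop) (by fun_prop) key
  simp only [mul_zero, add_zero, sub_zero, mul_one] at h
  have e2 : ((n : ℝ) + 2 * α - 2) ^ 2 / 4 = κ ^ 2 := by rw [hκ]; ring
  rw [e2]
  nlinarith

/-- `C ≤ -4α-2n`. -/
theorem upper_quad {α c : ℝ} (hn : 1 ≤ n) (hα : α < -((n : ℝ) + 2) / 2)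
    (hlow : ∀ u : E n → ℝ, Adm α u → c * den α u ≤ num α u) :
    c ≤ -4 * α - 2 * n := by
  have hn' : (1 : ℝ) ≤ n := by exact_mod_cast hn
  have h := upper2 (s := 1) (by linarith) (by linarith) hlow
  have e1 : α - 1 + 2 * 1 = α + 1 := by ring
  have e2 : α - 1 + 1 = α := by ring
  rw [e1, e2] at h
  have r1 := I_rec (n := n) (p := α + 1) (by linarith)
  have r2 := I_rec (n := n) (p := α) (by linarith)
  have e3 : α + 1 - 1 = α := by ring
  rw [e3] at r1
  have p1 := I_pos (n := n) (p := α + 1) (by linarith)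
  have p2 := I_pos (n := n) (p := α) (by linarith)
  have p3 := I_pos (n := n) (p := α - 1) (by linarith)
  set X := I n (α + 1)
  set Y := I n α
  set Z := I n (α - 1)
  set N : ℝ := (n : ℝ)
  obtain ⟨A, hA⟩ : ∃ A : ℝ, A = -(2 * α) := ⟨_, rfl⟩
  have hB : -(2 * (α + 1)) = A - 2 := by rw [hA]; ring
  rw [hB] at r1 h
  rw [← hA] at r2
  have q2 : 0 < A - 2 - N := by linarith
  have hN : 0 < N := by linarith
  have hAp : 0 < A := by linarith
  have h6 := mul_le_mul_of_nonneg_right h (mul_pos q2 hAp).le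
  have h7 : c * (X * Z - Y ^ 2) * (A - 2) * ((A - 2 - N) * A) =
      c * ((A - 2) * (Y ^ 2 * (2 * N))) := by
    have : c * (X * Z - Y ^ 2) * (A - 2) * ((A - 2 - N) * A) =
      c * (A - 2) * (((A - 2 - N) * X) * (A * Z) - (A - 2 - N) * A * Y ^ 2) := by ring
    rw [this, ← r1, r2]
    ring
  have h8 : 4 * 1 ^ 2 * N * X * Z * ((A - 2 - N) * A) =
      2 * (A - N) * ((A - 2) * (Y ^ 2 * (2 * N))) := by
    have : 4 * 1 ^ 2 * N * X * Z * ((A - 2 - N) * A) =
      4 * N * (((A - 2 - N) * X) * (A * Z)) := by ring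
    rw [this, ← r1, r2]
    ring
  rw [h7, h8] at h6
  have hw : 0 < (A - 2) * (Y ^ 2 * (2 * N)) := by
    have : 0 < A - 2 := by linarith
    positivity
  have := le_of_mul_le_mul_right h6 hw
  linarith

end Pool.Agent.W773.Hardy
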