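import Mathlib
import Pool.Agent.W773.Hardy.A4

set_option autoImplicit false
open MeasureTheory Set Filter Topology
open scoped RealInnerProductSpace ContDiff

namespace Pool.Agent.W773.Hardy

variable {n : ℕ}

theorem inner_abs_le_norm {a : E n} (ha : ‖a‖ = 1) (x : E n) : |⟪a, x⟫| ≤ ‖x‖ := by
  have := abs_real_inner_le_norm a x
  rwa [ha, one_mul] at this

/-- `C ≤ -2α`. -/
theorem upper_lin' {α c : ℝ} (hn : 2 ≤ n) (hα : α ≤ -n)
    (hlow : ∀ u : E n → ℝ, Adm α u → c * den α u ≤ num α u) :
    c ≤ -2 * α := by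
  have hn' : (2 : ℝ) ≤ n := by exact_mod_cast hn
  set a : E n := EuclideanSpace.single (⟨0, by omega⟩ : Fin n) (1 : ℝ) with ha
  have ha1 : ‖a‖ = 1 := by rw [ha]; simp
  have hfd : ∀ x : E n, HasFDerivAt (fun x : E n => ⟪a, x⟫) (innerSL ℝ a) x := fun x =>
    (innerSL ℝ a).hasFDerivAt
  have hw : ContDiff ℝ ∞ (fun x : E n => ⟪a, x⟫) := contDiff_const.inner ℝ contDiff_id
  have hDx : ∀ x : E n, ⟪a, x⟫ ^ 2 ≤ D x := by
    intro x
    have h1 := inner_abs_le_norm ha1 x
    have h2 := pow_le_pow_left₀ (abs_nonneg _) h1 2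
    rw [sq_abs] at h2
    unfold D; linarith
  have hDx1 : ∀ x : E n, |⟪a, x⟫| ≤ D x ^ (1 / 2 : ℝ) := by
    intro x
    rw [← Real.sqrt_eq_rpow]
    apply Real.abs_le_sqrt (hDx x)
  have iα : Integrable (fun x : E n => D x ^ α) := Dpow_integrable (by linarith)
  have hcw : Continuous (fun x : E n => ⟪a, x⟫) := hw.continuous
  have eD : ∀ x : E n, D x ^ α = D x ^ (α - 1) * D x := by
    intro x
    rw [← Real.rpow_add_one (D_pos x).ne']; congr 1; ring
  have i1 : Integrable (fun x : E n => D x ^ (α - 1) * ⟪a, x⟫ ^ 2) := by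
    refine iα.mono' ((Dpow_cont _).mul (hcw.pow 2)).aestronglyMeasurable ?_
    refine Eventually.of_forall fun x => ?_
    have hP := Real.rpow_pos_of_pos (D_pos x) (α - 1)
    rw [Real.norm_eq_abs, abs_of_nonneg (by positivity), eD]
    exact mul_le_mul_of_nonneg_left (hDx x) hP.le
  have i2 : Integrable (fun x : E n => D x ^ (α - 1) * ⟪a, x⟫) := by
    refine iα.mono' ((Dpow_cont _).mul hcw).aestronglyMeasurable ?_
    refine Eventually.of_forall fun x => ?_
    have hP := Real.rpow_pos_of_pos (D_pos x) (α - 1)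
    rw [norm_mul, Real.norm_eq_abs, Real.norm_eq_abs, abs_of_pos hP, eD]
    apply mul_le_mul_of_nonneg_left _ hP.le
    refine (hDx1 x).trans ?_
    calc D x ^ (1 / 2 : ℝ) ≤ D x ^ (1 : ℝ) :=
          Real.rpow_le_rpow_of_exponent_le (D_one_le x) (by norm_num)
      _ = D x := Real.rpow_one _
  have i3 : Integrable (fun x : E n => ⟪a, x⟫ * D x ^ α) := by
    have i4 : Integrable (fun x : E n => D x ^ (α + 1 / 2)) := Dpow_integrable (by linarith)
    refine i4.mono' (hcw.mul (Dpow_cont _)).aestronglyMeasurable ?_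
    refine Eventually.of_forall fun x => ?_
    have hP := Real.rpow_pos_of_pos (D_pos x) α
    rw [norm_mul, Real.norm_eq_abs, Real.norm_eq_abs, abs_of_pos hP, mul_comm,
      Real.rpow_add (D_pos x)]
    exact mul_le_mul_of_nonneg_left (hDx1 x) hP.le
  have hodd : ∫ x : E n, D x ^ (α - 1) * ⟪a, x⟫ = 0 := by
    have h1 := integral_neg_eq_self (fun x : E n => D x ^ (α - 1) * ⟪a, x⟫) volume
    have h2 : ∀ x : E n, D (-x) ^ (α - 1) * ⟪a, -x⟫ = -(D x ^ (α - 1) * ⟪a, x⟫) := by
      intro x
      have : D (-x) = D x := by unfold D; rw [norm_neg]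
      rw [this, inner_neg_right]; ring
    simp only [h2] at h1
    rw [integral_neg] at h1
    linarith
  have hnum : ∀ x : E n, D x ^ α * ‖fderiv ℝ (fun x : E n => ⟪a, x⟫) x‖ ^ 2 = D x ^ α := by
    intro x
    rw [(hfd x).fderiv, innerSL_apply_norm, ha1]
    ring
  have h := approx (c := c) hw i1 (by simp only [hnum]; exact iα) (fun _ => ⟨i2, hodd⟩) hlow
  have e1 : num α (fun x : E n => ⟪a, x⟫) = I n α := by
    unfold num I
    simp only [hnum]
  have hg : ∀ x : E n, fderiv ℝ (fun x : E n => D x ^ α) x a = 2 * α * D x ^ (α - 1) * ⟪a, x⟫ := by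
    intro x
    rw [(Dpow_hasFDerivAt α x).fderiv]
    simp only [smul_apply, smul_eq_mul, nsmul_eq_mul, innerSL_apply_apply]
    rw [real_inner_comm]
    push_cast
    ring
  have hf : ∀ x : E n, fderiv ℝ (fun x : E n => ⟪a, x⟫) x a = 1 := by
    intro x
    rw [(hfd x).fderiv, innerSL_apply_apply, real_inner_self_eq_norm_sq, ha1]
    norm_num
  have e2 : -(2 * α) * den α (fun x : E n => ⟪a, x⟫) = I n α := by
    have h1 := integral_mul_fderiv_eq_neg_fderiv_mul_of_integrable
      (μ := (volume : Measure (E n)))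
      (f := fun x : E n => ⟪a, x⟫) (g := fun x : E n => D x ^ α) (v := a)
      (by simp only [hf, one_mul]; exact iα) (by
        simp only [hg]
        have := i1.const_mul (2 * α)
        refine this.congr (Eventually.of_forall fun x => ?_)
        simp only
        ring) i3 (fun x _ => (hfd x).differentiableAt)
        (fun x _ => (Dpow_hasFDerivAt α x).differentiableAt)
    simp only [hf, hg, one_mul] at h1
    have h2 : ∫ x : E n, ⟪a, x⟫ * (2 * α * D x ^ (α - 1) * ⟪a, x⟫) =
        2 * α * den α (fun x : E n => ⟪a, x⟫) := by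
      unfold den
      rw [← integral_const_mul]
      apply integral_congr_ae
      refine Eventually.of_forall fun x => ?_
      simp only
      ring
    rw [h2] at h1
    unfold I
    linarith
  rw [e1, ← e2] at h
  have hI : 0 < I n α := I_pos (by linarith)
  have hden : 0 < den α (fun x : E n => ⟪a, x⟫) := by
    rw [← e2] at hI
    have hα0 : 0 < -(2 * α) := by linarith
    exact (pos_iff_pos_of_mul_pos hI).1 hα0
  have := le_of_mul_le_mul_right h hden
  linarith

end Pool.Agent.W773.Hardy
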