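import Mathlib
import Pool.Agent.W773.Hardy.A5

set_option autoImplicit false
open MeasureTheory Set Filter Topology
open scoped RealInnerProductSpace ContDiff

namespace Pool.Agent.W773.Hardy

variable {n : ℕ}

/-- rotation of `E × E` -/
noncomputable def rotE (θ : ℝ) : (E n × E n) ≃ₗ[ℝ] (E n × E n) where
  toFun p := (Real.cos θ • p.1 - Real.sin θ • p.2, Real.sin θ • p.1 + Real.cos θ • p.2)
  invFun p := (Real.cos θ • p.1 + Real.sin θ • p.2, -(Real.sin θ • p.1) + Real.cos θ • p.2)
  map_add' p q := by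
    ext i <;> simp <;> ring
  map_smul' c p := by
    ext i <;> simp <;> ring
  left_inv p := by
    have h := Real.sin_sq_add_cos_sq θ
    ext i
    · simp
      linear_combination (p.1 i) * h
    · simp
      linear_combination (p.2 i) * h
  right_inv p := by
    have h := Real.sin_sq_add_cos_sq θ
    ext i
    · simp
      linear_combination (p.1 i) * h
    · simp
      linear_combination (p.2 i) * h

theorem rotE_apply (θ : ℝ) (p : E n × E n) : rotE θ p =
    (Real.cos θ • p.1 - Real.sin θ • p.2, Real.sin θ • p.1 + Real.cos θ • p.2) := rfl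

theorem rotE_norm (θ : ℝ) (p : E n × E n) :
    ‖(rotE θ p).1‖ ^ 2 + ‖(rotE θ p).2‖ ^ 2 = ‖p.1‖ ^ 2 + ‖p.2‖ ^ 2 := by
  rw [rotE_apply]
  simp only
  rw [norm_sub_sq_real, norm_add_sq_real, norm_smul, norm_smul, norm_smul, norm_smul,
    inner_smul_left, inner_smul_left, inner_smul_right, inner_smul_right]
  simp only [Real.norm_eq_abs, mul_pow, sq_abs, conj_trivial]
  have h := Real.sin_sq_add_cos_sq θ
  linear_combination (‖p.1‖ ^ 2 + ‖p.2‖ ^ 2) * h

theorem rotE_mp (θ : ℝ) : MeasurePreserving (rotE θ : E n × E n → E n × E n) := by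
  let T : WithLp 2 (E n × E n) ≃ₗᵢ[ℝ] WithLp 2 (E n × E n) :=
    { ((WithLp.linearEquiv 2 ℝ (E n × E n)).trans (rotE θ)).trans
        (WithLp.linearEquiv 2 ℝ (E n × E n)).symm with
      norm_map' := by
        intro x
        rw [WithLp.prod_norm_eq_of_L2, WithLp.prod_norm_eq_of_L2]
        congr 1
        exact rotE_norm θ (x.fst, x.snd) }
  have h1 := T.measurePreserving
  have h2 := WithLp.volume_preserving_ofLp (E n) (E n)
  have h3 := WithLp.volume_preserving_toLp (E n) (E n)
  exact (h2.comp h1).comp h3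

/-- the weight on `E × E` -/
noncomputable def M (q : ℝ) (p : E n × E n) : ℝ := (1 + ‖p.1‖ ^ 2 + ‖p.2‖ ^ 2) ^ q

theorem M_base_pos (p : E n × E n) : 0 < 1 + ‖p.1‖ ^ 2 + ‖p.2‖ ^ 2 := by positivity

theorem M_pos (q : ℝ) (p : E n × E n) : 0 < M q p := Real.rpow_pos_of_pos (M_base_pos p) q

theorem M_cont (q : ℝ) : Continuous (M q : E n × E n → ℝ) := by
  unfold M
  refine Continuous.rpow_const ?_ fun p => Or.inl (M_base_pos p).ne'
  fun_prop

theorem M_rot (q θ : ℝ) (p : E n × E n) : M q (rotE θ p) = M q p := by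
  unfold M
  rw [add_assoc, rotE_norm, add_assoc]

theorem M_le {q : ℝ} (hq : q ≤ 0) (p : E n × E n) : M q p ≤ D p.2 ^ q := by
  unfold M
  apply Real.rpow_le_rpow_of_nonpos (D_pos _) _ hq
  unfold D
  nlinarith [sq_nonneg ‖p.1‖]

theorem inner_int {q : ℝ} (x : E n) :
    ∫ z : E n, M q (x, z) = D x ^ (q + n / 2) * I n q := by
  have hD := D_pos x
  have h := Measure.integral_comp_smul (volume : Measure (E n)) (fun z : E n => M q (x, z))
    (Real.sqrt (D x))
  have h1 : ∀ z : E n, M q (x, Real.sqrt (D x) • z) = D x ^ q * D z ^ q := by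
    intro z
    unfold M
    simp only
    rw [norm_smul, Real.norm_eq_abs, abs_of_nonneg (Real.sqrt_nonneg _), mul_pow,
      Real.sq_sqrt hD.le, ← Real.mul_rpow hD.le (D_pos z).le]
    congr 1
    unfold D
    ring
  simp only [h1] at h
  rw [integral_const_mul] at h
  have h2 : |(Real.sqrt (D x) ^ Module.finrank ℝ (E n))⁻¹| = (D x ^ ((n : ℝ) / 2))⁻¹ := by
    rw [abs_of_nonneg (by positivity), finrank_euclideanSpace, Fintype.card_fin,
      Real.sqrt_eq_rpow, ← Real.rpow_natCast, ← Real.rpow_mul hD.le]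
    congr 2
    ring
  rw [h2, smul_eq_mul] at h
  have h3 : 0 < D x ^ ((n : ℝ) / 2) := Real.rpow_pos_of_pos hD _
  rw [Real.rpow_add hD]
  unfold I
  field_simp at h
  linarith

theorem M_integrable {q : ℝ} (hq : q < -(n : ℝ) / 2) {f : E n → ℝ} (hf : Continuous f)
    (hc : HasCompactSupport f) : Integrable (fun p : E n × E n => f p.1 * M q p) := by
  have h1 : Integrable (fun p : E n × E n => f p.1 * D p.2 ^ q) :=
    (hf.integrable_of_hasCompactSupport hc).mul_prod (Dpow_integrable hq)
  refine h1.mono ((hf.comp continuous_fst).mul (M_cont q)).aestronglyMeasurable ?_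
  refine Eventually.of_forall fun p => ?_
  rw [norm_mul, norm_mul]
  apply mul_le_mul_of_nonneg_left _ (norm_nonneg _)
  rw [Real.norm_eq_abs, Real.norm_eq_abs, abs_of_pos (M_pos q p),
    abs_of_pos (Real.rpow_pos_of_pos (D_pos _) _)]
  apply M_le
  have : (0 : ℝ) ≤ n := Nat.cast_nonneg n
  linarith

theorem M_integral {q : ℝ} (hq : q < -(n : ℝ) / 2) {f : E n → ℝ} (hf : Continuous f)
    (hc : HasCompactSupport f) : ∫ p : E n × E n, f p.1 * M q p =
      I n q * ∫ x, D x ^ (q + n / 2) * f x := by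
  have h1 := M_integrable hq hf hc
  change ∫ p : E n × E n, f p.1 * M q p ∂(volume.prod volume) = _
  rw [integral_prod _ h1, ← integral_const_mul]
  apply integral_congr_ae
  refine Eventually.of_forall fun x => ?_
  simp only
  rw [integral_const_mul, inner_int]
  ring

end Pool.Agent.W773.Hardy
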