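import Mathlib
import Pool.Agent.W773.Hardy.A6

set_option autoImplicit false
open MeasureTheory Set Filter Topology
open scoped RealInnerProductSpace ContDiff

namespace Pool.Agent.W773.Hardy

variable {n : ℕ}

/-- the pair function -/
noncomputable def F (v : E n → ℝ) (q θ : ℝ) (p : E n × E n) : ℝ :=
  v p.1 * v (Real.cos θ • p.1 + Real.sin θ • p.2) * M q p

/-- its derivative -/
noncomputable def F' (v : E n → ℝ) (q θ : ℝ) (p : E n × E n) : ℝ :=
  v p.1 * fderiv ℝ v (Real.cos θ • p.1 + Real.sin θ • p.2)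
    (-(Real.sin θ) • p.1 + Real.cos θ • p.2) * M q p

theorem F_hasDerivAt {v : E n → ℝ} (hv : ContDiff ℝ 1 v) (q θ : ℝ) (p : E n × E n) :
    HasDerivAt (fun θ => F v q θ p) (F' v q θ p) θ := by
  unfold F F'
  have h1 : HasDerivAt (fun θ => Real.cos θ • p.1 + Real.sin θ • p.2)
      (-(Real.sin θ) • p.1 + Real.cos θ • p.2) θ :=
    ((Real.hasDerivAt_cos θ).smul_const p.1).add ((Real.hasDerivAt_sin θ).smul_const p.2)
  have h2 := ((hv.differentiable one_ne_zero)
    (Real.cos θ • p.1 + Real.sin θ • p.2)).hasFDerivAt.comp_hasDerivAt θ h1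
  exact (h2.const_mul (v p.1)).mul_const _

theorem norm_le_M (q : ℝ) (p : E n × E n) : (‖p.1‖ + ‖p.2‖) * M q p ≤ 2 * M (q + 1 / 2) p := by
  have hb := M_base_pos p
  have e : M (q + 1 / 2) p = Real.sqrt (1 + ‖p.1‖ ^ 2 + ‖p.2‖ ^ 2) * M q p := by
    unfold M
    rw [Real.rpow_add hb, Real.sqrt_eq_rpow]
    ring
  rw [e, ← mul_assoc]
  apply mul_le_mul_of_nonneg_right _ (M_pos q p).le
  have h1 : ‖p.1‖ ≤ Real.sqrt (1 + ‖p.1‖ ^ 2 + ‖p.2‖ ^ 2) := by
    apply Real.le_sqrt_of_sq_le
    nlinarith [sq_nonneg ‖p.2‖]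
  have h2 : ‖p.2‖ ≤ Real.sqrt (1 + ‖p.1‖ ^ 2 + ‖p.2‖ ^ 2) := by
    apply Real.le_sqrt_of_sq_le
    nlinarith [sq_nonneg ‖p.1‖]
  linarith

theorem F'_cont {v : E n → ℝ} (hv : ContDiff ℝ 1 v) (q θ : ℝ) : Continuous (F' v q θ) := by
  unfold F'
  have h1 : Continuous fun p : E n × E n => Real.cos θ • p.1 + Real.sin θ • p.2 := by fun_prop
  have h2 : Continuous fun p : E n × E n => -(Real.sin θ) • p.1 + Real.cos θ • p.2 := by fun_prop
  exact ((hv.continuous.comp continuous_fst).mul
    (((hv.continuous_fderiv one_ne_zero).comp h1).clm_apply h2)).mul (M_cont q)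

theorem F_cont {v : E n → ℝ} (hv : ContDiff ℝ 1 v) (q θ : ℝ) : Continuous (F v q θ) := by
  unfold F
  have h1 : Continuous fun p : E n × E n => Real.cos θ • p.1 + Real.sin θ • p.2 := by fun_prop
  exact ((hv.continuous.comp continuous_fst).mul (hv.continuous.comp h1)).mul (M_cont q)

theorem F'_bound {v : E n → ℝ} (hv : ContDiff ℝ 1 v) (hc : HasCompactSupport v) (q : ℝ) :
    ∃ K : ℝ, ∀ θ p, ‖F' v q θ p‖ ≤ K * (|v p.1| * M (q + 1 / 2) p) := by
  obtain ⟨K, hK⟩ := (hv.continuous_fderiv one_ne_zero).bounded_above_of_compact_support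
    (hc.fderiv ℝ)
  have hK0 : 0 ≤ K := (norm_nonneg _).trans (hK 0)
  refine ⟨2 * K, fun θ p => ?_⟩
  unfold F'
  rw [norm_mul, norm_mul, Real.norm_eq_abs (v p.1), Real.norm_eq_abs (M q p),
    abs_of_pos (M_pos q p)]
  have h1 : ‖fderiv ℝ v (Real.cos θ • p.1 + Real.sin θ • p.2)
      (-(Real.sin θ) • p.1 + Real.cos θ • p.2)‖ ≤ K * (‖p.1‖ + ‖p.2‖) := by
    refine (ContinuousLinearMap.le_opNorm _ _).trans ?_
    apply mul_le_mul (hK _) _ (norm_nonneg _) hK0
    refine (norm_add_le _ _).trans ?_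
    rw [norm_smul, norm_smul, Real.norm_eq_abs, Real.norm_eq_abs, abs_neg]
    have h2 := Real.abs_sin_le_one θ
    have h3 := Real.abs_cos_le_one θ
    nlinarith [norm_nonneg p.1, norm_nonneg p.2]
  calc |v p.1| * ‖fderiv ℝ v (Real.cos θ • p.1 + Real.sin θ • p.2)
        (-(Real.sin θ) • p.1 + Real.cos θ • p.2)‖ * M q p
      ≤ |v p.1| * (K * (‖p.1‖ + ‖p.2‖)) * M q p := by
        apply mul_le_mul_of_nonneg_right _ (M_pos q p).le
        exact mul_le_mul_of_nonneg_left h1 (abs_nonneg _)
    _ = |v p.1| * K * ((‖p.1‖ + ‖p.2‖) * M q p) := by ring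
    _ ≤ |v p.1| * K * (2 * M (q + 1 / 2) p) :=
        mul_le_mul_of_nonneg_left (norm_le_M q p) (by positivity)
    _ = _ := by ring

theorem F_int {v : E n → ℝ} (hv : ContDiff ℝ 1 v) (hc : HasCompactSupport v) {q : ℝ}
    (hq : q < -(n : ℝ) / 2) (θ : ℝ) : Integrable (F v q θ) := by
  obtain ⟨K, hK⟩ := hv.continuous.bounded_above_of_compact_support hc
  have h1 := (M_integrable hq hv.continuous hc).norm.const_mul K
  refine h1.mono' (F_cont hv q θ).aestronglyMeasurable ?_
  refine Eventually.of_forall fun p => ?_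
  unfold F
  rw [norm_mul, norm_mul, norm_mul]
  have h2 := hK (Real.cos θ • p.1 + Real.sin θ • p.2)
  calc ‖v p.1‖ * ‖v (Real.cos θ • p.1 + Real.sin θ • p.2)‖ * ‖M q p‖
      ≤ ‖v p.1‖ * K * ‖M q p‖ := by
        apply mul_le_mul_of_nonneg_right _ (norm_nonneg _)
        exact mul_le_mul_of_nonneg_left h2 (norm_nonneg _)
    _ = _ := by ring

theorem Phi_hasDerivAt {v : E n → ℝ} (hv : ContDiff ℝ 1 v) (hc : HasCompactSupport v) {q : ℝ}
    (hq : q + 1 / 2 < -(n : ℝ) / 2) (θ : ℝ) :
    Integrable (F' v q θ) ∧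
    HasDerivAt (fun θ => ∫ p : E n × E n, F v q θ p) (∫ p : E n × E n, F' v q θ p) θ := by
  obtain ⟨K, hK⟩ := F'_bound hv hc q
  have habs : Continuous fun x : E n => |v x| := hv.continuous.abs
  have habsc : HasCompactSupport fun x : E n => |v x| :=
    hc.comp_left (g := fun t : ℝ => |t|) (by simp)
  have hint := (M_integrable hq habs habsc).const_mul K
  exact hasDerivAt_integral_of_dominated_loc_of_deriv_le (F := F v q) (F' := F' v q)
    (bound := fun p => K * (|v p.1| * M (q + 1 / 2) p)) (s := univ) univ_mem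
    (Eventually.of_forall fun θ' => (F_cont hv q θ').aestronglyMeasurable)
    (F_int hv hc (by linarith) θ) (F'_cont hv q θ).aestronglyMeasurable
    (Eventually.of_forall fun p θ' _ => hK θ' p) hint
    (Eventually.of_forall fun p θ' _ => F_hasDerivAt hv q θ' p)

theorem F'_rot {v : E n → ℝ} (q θ : ℝ) (p : E n × E n) :
    F' v q θ (rotE θ p) = v (Real.cos θ • p.1 - Real.sin θ • p.2) * fderiv ℝ v p.1 p.2 * M q p := by
  unfold F'
  rw [M_rot]
  have h := Real.sin_sq_add_cos_sq θ
  have e1 : Real.cos θ • (rotE θ p).1 + Real.sin θ • (rotE θ p).2 = p.1 := by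
    rw [rotE_apply]
    ext i
    simp
    linear_combination (p.1 i) * h
  have e2 : -(Real.sin θ) • (rotE θ p).1 + Real.cos θ • (rotE θ p).2 = p.2 := by
    rw [rotE_apply]
    ext i
    simp
    linear_combination (p.2 i) * h
  rw [e1, e2]
  rfl

theorem rotE_integral (θ : ℝ) (f : E n × E n → ℝ) :
    ∫ p, f (rotE θ p) = ∫ p, f p := by
  have h := rotE_mp (n := n) θ
  refine h.integral_comp ?_ f
  exact (rotE θ).toContinuousLinearEquiv.toHomeomorph.measurableEmbedding

theorem rotE_integrable (θ : ℝ) {f : E n × E n → ℝ} (hf : Integrable f) :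
    Integrable fun p => f (rotE θ p) :=
  (rotE_mp (n := n) θ).integrable_comp_of_integrable hf

/-- gradient as a vector -/
noncomputable def grad (v : E n → ℝ) (y : E n) : E n :=
  (InnerProductSpace.toDual ℝ (E n)).symm (fderiv ℝ v y)

theorem grad_inner (v : E n → ℝ) (y w : E n) : ⟪grad v y, w⟫ = fderiv ℝ v y w := by
  unfold grad
  exact InnerProductSpace.toDual_symm_apply

theorem grad_norm (v : E n → ℝ) (y : E n) : ‖grad v y‖ = ‖fderiv ℝ v y‖ := by
  unfold grad
  simp

theorem grad_cont {v : E n → ℝ} (hv : ContDiff ℝ 1 v) : Continuous (grad v) := by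
  unfold grad
  exact (InnerProductSpace.toDual ℝ (E n)).symm.continuous.comp
    (hv.continuous_fderiv one_ne_zero)

theorem M_hasFDerivAt (q : ℝ) (y w : E n) :
    HasFDerivAt (fun w : E n => M (q + 1) (y, w)) (((q + 1) * M q (y, w)) • (2 • (innerSL ℝ w)))
      w := by
  unfold M
  have h1 : HasFDerivAt (fun w : E n => 1 + ‖y‖ ^ 2 + ‖w‖ ^ 2) (2 • (innerSL ℝ w)) w :=
    (hasStrictFDerivAt_norm_sq w).hasFDerivAt.const_add _
  have h2 := h1.rpow_const (p := q + 1) (Or.inl (M_base_pos (y, w)).ne')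
  simpa using h2

/-- integration by parts in the second variable -/
theorem inner_ibp {v : E n → ℝ} (hv : ContDiff ℝ 1 v) (hc : HasCompactSupport v) (q θ : ℝ)
    (hθ : Real.sin θ ≠ 0) (y : E n) :
    2 * (q + 1) * ∫ w : E n, v (Real.cos θ • y - Real.sin θ • w) * fderiv ℝ v y w * M q (y, w) =
      Real.sin θ * ∫ w : E n, fderiv ℝ v (Real.cos θ • y - Real.sin θ • w) (grad v y) *
        M (q + 1) (y, w) := by
  set a := grad v y with ha
  have hf : ∀ w : E n, HasFDerivAt (fun w : E n => v (Real.cos θ • y - Real.sin θ • w))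
      ((fderiv ℝ v (Real.cos θ • y - Real.sin θ • w)).comp
        (-(Real.sin θ • ContinuousLinearMap.id ℝ (E n)))) w := by
    intro w
    have h1 : HasFDerivAt (fun w : E n => Real.cos θ • y - Real.sin θ • w)
        (-(Real.sin θ • ContinuousLinearMap.id ℝ (E n))) w :=
      ((Real.sin θ • ContinuousLinearMap.id ℝ (E n)).hasFDerivAt).const_sub _
    exact ((hv.differentiable one_ne_zero) _).hasFDerivAt.comp w h1
  have hcs : HasCompactSupport (fun w : E n => v (Real.cos θ • y - Real.sin θ • w)) := by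
    have h2 : Topology.IsClosedEmbedding (fun w : E n => Real.cos θ • y - Real.sin θ • w) := by
      have h3 := ((Homeomorph.smulOfNeZero (Real.sin θ) hθ).trans
        (Homeomorph.subLeft (Real.cos θ • y))).isClosedEmbedding
      exact h3
    exact hc.comp_isClosedEmbedding h2
  have hcs' : HasCompactSupport (fun w : E n => fderiv ℝ v (Real.cos θ • y - Real.sin θ • w)) := by
    have h2 : Topology.IsClosedEmbedding (fun w : E n => Real.cos θ • y - Real.sin θ • w) := by
      have h3 := ((Homeomorph.smulOfNeZero (Real.sin θ) hθ).trans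
        (Homeomorph.subLeft (Real.cos θ • y))).isClosedEmbedding
      exact h3
    exact (hc.fderiv ℝ).comp_isClosedEmbedding h2
  have hcont : Continuous fun w : E n => Real.cos θ • y - Real.sin θ • w := by fun_prop
  have hMc : ∀ r : ℝ, Continuous fun w : E n => M r (y, w) := fun r =>
    (M_cont r).comp (continuous_const.prodMk continuous_id)
  have e1 : ∀ w : E n, fderiv ℝ (fun w : E n => M (q + 1) (y, w)) w a =
      2 * (q + 1) * (fderiv ℝ v y w * M q (y, w)) := by
    intro w
    rw [(M_hasFDerivAt q y w).fderiv]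
    simp only [smul_apply, smul_eq_mul, nsmul_eq_mul, innerSL_apply_apply]
    rw [real_inner_comm, ha, grad_inner]
    push_cast
    ring
  have e2 : ∀ w : E n, fderiv ℝ (fun w : E n => v (Real.cos θ • y - Real.sin θ • w)) w a =
      -(Real.sin θ) * fderiv ℝ v (Real.cos θ • y - Real.sin θ • w) a := by
    intro w
    rw [(hf w).fderiv]
    simp
  have h := integral_mul_fderiv_eq_neg_fderiv_mul_of_integrable
    (μ := (volume : Measure (E n)))
    (f := fun w : E n => v (Real.cos θ • y - Real.sin θ • w))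
    (g := fun w : E n => M (q + 1) (y, w)) (v := a) ?_ ?_ ?_
    (fun w _ => (hf w).differentiableAt) (fun w _ => (M_hasFDerivAt q y w).differentiableAt)
  · simp only [e1, e2] at h
    have h4 : ∫ w : E n, v (Real.cos θ • y - Real.sin θ • w) *
        (2 * (q + 1) * (fderiv ℝ v y w * M q (y, w))) = 2 * (q + 1) *
        ∫ w : E n, v (Real.cos θ • y - Real.sin θ • w) * fderiv ℝ v y w * M q (y, w) := by
      rw [← integral_const_mul]
      apply integral_congr_ae
      refine Eventually.of_forall fun w => ?_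
      simp only
      ring
    rw [h4] at h
    rw [h, ← integral_neg, ← integral_const_mul]
    apply integral_congr_ae
    refine Eventually.of_forall fun w => ?_
    simp only
    ring
  · simp only [e2]
    refine Continuous.integrable_of_hasCompactSupport ?_ ?_
    · exact (continuous_const.mul (((hv.continuous_fderiv one_ne_zero).comp hcont).clm_apply
        continuous_const)).mul (hMc _)
    · refine HasCompactSupport.mul_right (HasCompactSupport.mul_left ?_)
      exact hcs'.comp_left (g := fun L : E n →L[ℝ] ℝ => L a) (by simp)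
  · simp only [e1]
    refine Continuous.integrable_of_hasCompactSupport ?_ hcs.mul_right
    exact (hv.continuous.comp hcont).mul (continuous_const.mul
      (((fderiv ℝ v y).continuous).mul (hMc _)))
  · refine Continuous.integrable_of_hasCompactSupport ?_ hcs.mul_right
    exact (hv.continuous.comp hcont).mul (hMc _)

end Pool.Agent.W773.Hardy
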