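import Mathlib
import Pool.Agent.W773.Hardy.A7

set_option autoImplicit false
open MeasureTheory Set Filter Topology
open scoped RealInnerProductSpace ContDiff

namespace Pool.Agent.W773.Hardy

variable {n : ℕ}

theorem dPhi_bound {v : E n → ℝ} (hv : ContDiff ℝ 1 v) (hc : HasCompactSupport v) {q : ℝ}
    (hq : q + 1 < -(n : ℝ) / 2) {θ : ℝ} (hθ : 0 < Real.sin θ) :
    -(∫ p : E n × E n, F' v q θ p) ≤
      Real.sin θ * ((∫ p : E n × E n, ‖fderiv ℝ v p.1‖ ^ 2 * M (q + 1) p) / (-(2 * (q + 1)))) := by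
  have hn0 : (0 : ℝ) ≤ n := Nat.cast_nonneg n
  have hq1 : q + 1 < 0 := by linarith
  have hfc : Continuous fun x : E n => ‖fderiv ℝ v x‖ ^ 2 :=
    (hv.continuous_fderiv one_ne_zero).norm.pow 2
  have hfcs : HasCompactSupport fun x : E n => ‖fderiv ℝ v x‖ ^ 2 :=
    (hc.fderiv ℝ).comp_left (g := fun L : E n →L[ℝ] ℝ => ‖L‖ ^ 2) (by simp)
  have H1 := M_integrable hq hfc hfcs
  set A := ∫ p : E n × E n, ‖fderiv ℝ v p.1‖ ^ 2 * M (q + 1) p with hA
  have H2 : Integrable fun p : E n × E n => ‖fderiv ℝ v (rotE θ p).1‖ ^ 2 * M (q + 1) p := by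
    have := rotE_integrable θ H1
    simpa only [M_rot] using this
  have H2A : ∫ p : E n × E n, ‖fderiv ℝ v (rotE θ p).1‖ ^ 2 * M (q + 1) p = A := by
    have := rotE_integral θ (fun p : E n × E n => ‖fderiv ℝ v p.1‖ ^ 2 * M (q + 1) p)
    simpa only [M_rot] using this
  set G : E n × E n → ℝ := fun p =>
    fderiv ℝ v (Real.cos θ • p.1 - Real.sin θ • p.2) (grad v p.1) * M (q + 1) p with hG
  have hGle : ∀ p, |G p| ≤ 1 / 2 * (‖fderiv ℝ v (rotE θ p).1‖ ^ 2 * M (q + 1) p +
      ‖fderiv ℝ v p.1‖ ^ 2 * M (q + 1) p) := by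
    intro p
    rw [hG]
    simp only
    rw [abs_mul, abs_of_pos (M_pos (q + 1) p), ← Real.norm_eq_abs]
    have h1 := (fderiv ℝ v (Real.cos θ • p.1 - Real.sin θ • p.2)).le_opNorm (grad v p.1)
    rw [grad_norm] at h1
    have h2 : (rotE θ p).1 = Real.cos θ • p.1 - Real.sin θ • p.2 := rfl
    rw [h2, ← add_mul, ← mul_assoc]
    apply mul_le_mul_of_nonneg_right _ (M_pos (q + 1) p).le
    nlinarith [sq_nonneg (‖fderiv ℝ v (Real.cos θ • p.1 - Real.sin θ • p.2)‖ -
      ‖fderiv ℝ v p.1‖)]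
  have hGc : Continuous G := by
    rw [hG]
    have h1 : Continuous fun p : E n × E n => Real.cos θ • p.1 - Real.sin θ • p.2 := by fun_prop
    exact (((hv.continuous_fderiv one_ne_zero).comp h1).clm_apply
      ((grad_cont hv).comp continuous_fst)).mul (M_cont _)
  have hGi : Integrable G := by
    refine ((H2.add H1).const_mul (1 / 2)).mono' hGc.aestronglyMeasurable ?_
    exact Eventually.of_forall fun p => hGle p
  have hGA : ∫ p, G p ≤ A := by
    have h1 : ∫ p, G p ≤ ∫ p : E n × E n, 1 / 2 * (‖fderiv ℝ v (rotE θ p).1‖ ^ 2 * M (q + 1) p +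
      ‖fderiv ℝ v p.1‖ ^ 2 * M (q + 1) p) :=
      integral_mono hGi ((H2.add H1).const_mul (1 / 2)) fun p => (le_abs_self _).trans (hGle p)
    rw [integral_const_mul, integral_add H2 H1, H2A] at h1
    linarith
  have hF'i := (Phi_hasDerivAt hv hc (by linarith : q + 1 / 2 < -(n : ℝ) / 2) θ).1
  have e1 : ∫ p : E n × E n, F' v q θ p = ∫ p : E n × E n,
      v (Real.cos θ • p.1 - Real.sin θ • p.2) * fderiv ℝ v p.1 p.2 * M q p := by
    rw [← rotE_integral θ]
    simp only [F'_rot]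
  have hi : Integrable fun p : E n × E n =>
      v (Real.cos θ • p.1 - Real.sin θ • p.2) * fderiv ℝ v p.1 p.2 * M q p := by
    have := rotE_integrable θ hF'i
    simpa only [F'_rot] using this
  have e2 : 2 * (q + 1) * ∫ p : E n × E n, F' v q θ p = Real.sin θ * ∫ p, G p := by
    rw [e1]
    change 2 * (q + 1) * ∫ p : E n × E n, v (Real.cos θ • p.1 - Real.sin θ • p.2) *
      fderiv ℝ v p.1 p.2 * M q p ∂(volume.prod volume) =
      Real.sin θ * ∫ p : E n × E n, G p ∂(volume.prod volume)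
    rw [integral_prod _ hi, integral_prod _ hGi, ← integral_const_mul, ← integral_const_mul]
    apply integral_congr_ae
    refine Eventually.of_forall fun y => ?_
    exact inner_ibp hv hc q θ hθ.ne' y
  have hpos : 0 < -(2 * (q + 1)) := by linarith
  have e3 : -(∫ p : E n × E n, F' v q θ p) = Real.sin θ * ((∫ p, G p) / (-(2 * (q + 1)))) := by
    rw [mul_div_assoc', ← e2, eq_div_iff hpos.ne']
    ring
  rw [e3]
  apply mul_le_mul_of_nonneg_left _ hθ.le
  exact div_le_div_of_nonneg_right hGA hpos.le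

/-- The inequality with constant `2β` for functions without radial part. -/
theorem nonradial {β : ℝ} (hβ : 0 < β) {v : E n → ℝ} (hv : ContDiff ℝ 1 v)
    (hc : HasCompactSupport v)
    (hz : ∫ p : E n × E n, v p.1 * v p.2 * M (-(β + 1 + n / 2)) p = 0) :
    2 * β * den (-β) v ≤ num (-β) v := by
  have hn0 : (0 : ℝ) ≤ n := Nat.cast_nonneg n
  set q : ℝ := -(β + 1 + n / 2) with hqdef
  have hq : q + 1 < -(n : ℝ) / 2 := by rw [hqdef]; linarith
  have hfc : Continuous fun x : E n => ‖fderiv ℝ v x‖ ^ 2 :=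
    (hv.continuous_fderiv one_ne_zero).norm.pow 2
  have hfcs : HasCompactSupport fun x : E n => ‖fderiv ℝ v x‖ ^ 2 :=
    (hc.fderiv ℝ).comp_left (g := fun L : E n →L[ℝ] ℝ => ‖L‖ ^ 2) (by simp)
  have hvc : Continuous fun x : E n => v x ^ 2 := hv.continuous.pow 2
  have hvcs : HasCompactSupport fun x : E n => v x ^ 2 :=
    hc.comp_left (g := fun t : ℝ => t ^ 2) (by simp)
  have hA := M_integral hq hfc hfcs
  set A := ∫ p : E n × E n, ‖fderiv ℝ v p.1‖ ^ 2 * M (q + 1) p with hAdef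
  have e1 : q + 1 + n / 2 = -β := by rw [hqdef]; ring
  rw [e1] at hA
  have hA' : A = I n (q + 1) * num (-β) v := hA
  set Φ : ℝ → ℝ := fun θ => ∫ p : E n × E n, F v q θ p with hΦ
  have hΦd : ∀ θ, HasDerivAt Φ (∫ p : E n × E n, F' v q θ p) θ := fun θ =>
    (Phi_hasDerivAt hv hc (by linarith : q + 1 / 2 < -(n : ℝ) / 2) θ).2
  have h0 : Φ 0 = I n q * den (-β) v := by
    have h1 := M_integral (by linarith : q < -(n : ℝ) / 2) hvc hvcs
    have e2 : q + n / 2 = -β - 1 := by rw [hqdef]; ring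
    rw [e2] at h1
    rw [hΦ]
    simp only [F, Real.cos_zero, Real.sin_zero, one_smul, zero_smul, add_zero]
    rw [← show ∫ p : E n × E n, v p.1 ^ 2 * M q p = I n q * den (-β) v from h1]
    congr 1
    funext p
    ring
  have hpi : Φ (Real.pi / 2) = 0 := by
    rw [hΦ]
    simp only [F, Real.cos_pi_div_two, Real.sin_pi_div_two, one_smul, zero_smul, zero_add]
    exact hz
  set B : ℝ := A / (-(2 * (q + 1))) with hB
  have hmono : MonotoneOn (fun θ => Φ θ - B * Real.cos θ) (Icc 0 (Real.pi / 2)) := by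
    have hd : ∀ θ, HasDerivAt (fun θ => Φ θ - B * Real.cos θ)
        ((∫ p : E n × E n, F' v q θ p) - B * (-(Real.sin θ))) θ := fun θ =>
      (hΦd θ).sub ((Real.hasDerivAt_cos θ).const_mul B)
    refine monotoneOn_of_deriv_nonneg (convex_Icc _ _) ?_ ?_ ?_
    · exact fun θ _ => (hd θ).continuousAt.continuousWithinAt
    · exact fun θ _ => (hd θ).differentiableAt.differentiableWithinAt
    · intro θ hθ
      rw [interior_Icc] at hθ
      rw [(hd θ).deriv]
      have hs : 0 < Real.sin θ := Real.sin_pos_of_pos_of_lt_pi hθ.1 (by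
        have := Real.pi_pos
        linarith [hθ.2])
      have := dPhi_bound hv hc hq hs
      rw [← hAdef, ← hB] at this
      linarith
  have h2 := hmono (left_mem_Icc.2 (by positivity)) (right_mem_Icc.2 (by positivity))
    (by positivity : (0 : ℝ) ≤ Real.pi / 2)
  simp only [Real.cos_zero, Real.cos_pi_div_two, mul_one, mul_zero, sub_zero] at h2
  rw [hpi, h0] at h2
  have hr := I_rec hq
  have e3 : q + 1 - 1 = q := by ring
  have e4 : -(2 * (q + 1)) - n = 2 * β := by rw [hqdef]; ring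
  rw [e3, e4] at hr
  have hpos : 0 < -(2 * (q + 1)) := by linarith
  have hI : 0 < I n q := I_pos (by linarith)
  have h3 : I n q * den (-β) v ≤ A / (-(2 * (q + 1))) := by linarith
  rw [le_div_iff₀ hpos, hA'] at h3
  have h4 : (2 * β * den (-β) v) * I n (q + 1) ≤ (num (-β) v) * I n (q + 1) := by
    have : I n q * den (-β) v * -(2 * (q + 1)) = (2 * β * I n (q + 1)) * den (-β) v := by
      rw [← hr]; ring
    rw [this] at h3
    linarith
  exact le_of_mul_le_mul_right h4 (I_pos hq)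

end Pool.Agent.W773.Hardy
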