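import Mathlib
import Pool.Agent.W773.Hardy.A8
import Pool.Agent.H789R2.FR.Sph

set_option autoImplicit false
open MeasureTheory Set Filter Topology Metric
open scoped RealInnerProductSpace ContDiff

namespace Pool.Agent.W773.Hardy

open Pool.Agent.H789R2.FR (sg sg_finite sg_ae sg_inv)

variable {n : ℕ}

theorem sg_integral (f : E n → ℝ) : ∫ w, f w ∂(sg n) =
    ∫ v : sphere (0 : E n) 1, f v ∂((volume : Measure (E n)).toSphere) := by
  unfold sg
  rw [(MeasurableEmbedding.subtype_coe isClosed_sphere.measurableSet).integral_map]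

/-- Polar coordinates. -/
theorem polarS (hn : 0 < n) (g : E n → ℝ) (hg : Integrable g) :
    ∫ y : E n, g y = ∫ r in Ioi (0:ℝ), r ^ (n - 1) * ∫ w, g (r • w) ∂(sg n) := by
  haveI : Nonempty (Fin n) := ⟨⟨0, hn⟩⟩
  haveI : Nontrivial (E n) := inferInstance
  have hfr : Module.finrank ℝ (E n) = n := by simp
  have hmp := (volume : Measure (E n)).measurePreserving_homeomorphUnitSphereProd
  rw [hfr] at hmp
  have hemb := (homeomorphUnitSphereProd (E n)).measurableEmbedding
  have hcomp : ∀ x : ({(0 : E n)}ᶜ : Set (E n)),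
      (fun p : sphere (0 : E n) 1 × Ioi (0:ℝ) => g ((p.2 : ℝ) • (p.1 : E n)))
        (homeomorphUnitSphereProd (E n) x) = g x := by
    intro x
    show g _ = g x
    congr 1
    have h1 := (homeomorphUnitSphereProd (E n)).symm_apply_apply x
    have h2 := congrArg Subtype.val h1
    rw [homeomorphUnitSphereProd_symm_apply_coe] at h2
    exact h2
  have hint : Integrable (fun p : sphere (0 : E n) 1 × Ioi (0:ℝ) => g ((p.2 : ℝ) • (p.1 : E n)))
      ((volume : Measure (E n)).toSphere.prod (Measure.volumeIoiPow (n - 1))) := by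
    rw [← hmp.integrable_comp_emb hemb]
    have h1 : IntegrableOn g ({(0 : E n)}ᶜ : Set (E n)) := hg.integrableOn
    rw [integrableOn_iff_comap_subtypeVal (measurableSet_singleton _).compl] at h1
    refine h1.congr (Filter.Eventually.of_forall fun x => ?_)
    exact (hcomp x).symm
  calc ∫ y : E n, g y = ∫ x : ({(0 : E n)}ᶜ : Set (E n)), g x ∂((volume : Measure (E n)).comap (↑)) := by
        rw [integral_subtype_comap (measurableSet_singleton _).compl g,
          restrict_compl_singleton]
    _ = ∫ x : ({(0 : E n)}ᶜ : Set (E n)),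
        (fun p : sphere (0 : E n) 1 × Ioi (0:ℝ) => g ((p.2 : ℝ) • (p.1 : E n)))
          (homeomorphUnitSphereProd (E n) x) ∂((volume : Measure (E n)).comap (↑)) := by
        congr 1
        funext x
        exact (hcomp x).symm
    _ = ∫ p : sphere (0 : E n) 1 × Ioi (0:ℝ), g ((p.2 : ℝ) • (p.1 : E n))
          ∂((volume : Measure (E n)).toSphere.prod
            (Measure.volumeIoiPow (n - 1))) :=
        hmp.integral_comp hemb (fun p : sphere (0 : E n) 1 × Ioi (0:ℝ) => g ((p.2 : ℝ) • (p.1 : E n)))
    _ = ∫ r : Ioi (0:ℝ), ∫ v : sphere (0 : E n) 1, g ((r : ℝ) • (v : E n))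
          ∂((volume : Measure (E n)).toSphere)
          ∂(Measure.volumeIoiPow (n - 1)) := integral_prod_symm _ hint
    _ = _ := by
        simp only [Measure.volumeIoiPow, ENNReal.ofReal]
        rw [integral_withDensity_eq_integral_smul,
          integral_subtype_comap measurableSet_Ioi
            fun a ↦ Real.toNNReal (a ^ (n - 1)) • ∫ v : sphere (0 : E n) 1, g (a • (v : E n))
              ∂((volume : Measure (E n)).toSphere),
          setIntegral_congr_fun measurableSet_Ioi fun x hx ↦ ?_]
        · rw [NNReal.smul_def, Real.coe_toNNReal _ (pow_nonneg (le_of_lt hx) _), smul_eq_mul,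
            sg_integral]
        · exact (measurable_subtype_coe.pow_const _).real_toNNReal

/-- integrals vanish if all spherical means vanish -/
theorem radial_orth (hn : 0 < n) {g : E n → ℝ} (hg : Integrable g)
    (h : ∀ r : ℝ, 0 < r → ∫ w, g (r • w) ∂(sg n) = 0) : ∫ x, g x = 0 := by
  rw [polarS hn g hg]
  rw [setIntegral_congr_fun (g := fun _ => (0 : ℝ)) measurableSet_Ioi]
  · simp
  · intro r hr
    simp only
    rw [h r hr, mul_zero]

end Pool.Agent.W773.Hardy
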