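import Mathlib
import Pool.Agent.W773.Hardy.A9

set_option autoImplicit false
set_option linter.style.haveILetI false
open MeasureTheory Set Filter Topology Metric
open scoped RealInnerProductSpace ContDiff

namespace Pool.Agent.W773.Hardy

open Pool.Agent.H789R2.FR (sg sg_finite sg_ae sg_inv)

variable {n : ℕ}

/-- total mass of the sphere -/
noncomputable def S (n : ℕ) : ℝ := ∫ _w, (1 : ℝ) ∂(sg n)

theorem S_pos (hn : 0 < n) : 0 < S n := by
  haveI : Nonempty (Fin n) := ⟨⟨0, hn⟩⟩
  haveI : Nontrivial (E n) := inferInstance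
  unfold S
  rw [sg_integral (fun _ => (1 : ℝ))]
  simp only [integral_const, smul_eq_mul, mul_one]
  rw [Measure.toSphere_real_apply_univ, finrank_euclideanSpace, Fintype.card_fin]
  have h1 : 0 < (volume : Measure (E n)).real (ball 0 1) := by
    rw [measureReal_def]
    exact ENNReal.toReal_pos (measure_ball_pos _ _ one_pos).ne' measure_ball_lt_top.ne
  have h2 : (0 : ℝ) < n := by exact_mod_cast hn
  positivity

/-- spherical mean -/
noncomputable def phi (u : E n → ℝ) (r : ℝ) : ℝ := (S n)⁻¹ * ∫ w, u (r • w) ∂(sg n)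
/-- its derivative -/
noncomputable def phi' (u : E n → ℝ) (r : ℝ) : ℝ := (S n)⁻¹ * ∫ w, fderiv ℝ u (r • w) w ∂(sg n)

theorem sg_integrable {f : E n → ℝ} (hf : Continuous f) : Integrable f (sg n) := by
  haveI := sg_finite n
  obtain ⟨K, hK⟩ := (isCompact_closedBall (0 : E n) 1).exists_bound_of_continuousOn hf.continuousOn
  refine Integrable.mono' (integrable_const K) hf.aestronglyMeasurable ?_
  filter_upwards [sg_ae n] with w hw
  exact hK w (by simp [hw])

theorem phi_hasDerivAt {u : E n → ℝ} (hu : ContDiff ℝ 1 u) (hc : HasCompactSupport u) (r : ℝ) :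
    HasDerivAt (phi u) (phi' u r) r := by
  haveI := sg_finite n
  obtain ⟨K, hK⟩ := (hu.continuous_fderiv one_ne_zero).bounded_above_of_compact_support
    (hc.fderiv ℝ)
  have h := (hasDerivAt_integral_of_dominated_loc_of_deriv_le (μ := sg n)
    (F := fun r w => u (r • w)) (F' := fun r w => fderiv ℝ u (r • w) w)
    (bound := fun _ => K) (x₀ := r) (s := univ) univ_mem ?_ ?_ ?_ ?_ ?_ ?_).2
  · exact h.const_mul _
  · exact Eventually.of_forall fun r' =>
      (hu.continuous.comp (continuous_const_smul r')).aestronglyMeasurable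
  · exact sg_integrable (hu.continuous.comp (continuous_const_smul r))
  · exact (((hu.continuous_fderiv one_ne_zero).comp (continuous_const_smul r)).clm_apply
      continuous_id).aestronglyMeasurable
  · filter_upwards [sg_ae n] with w hw r' _
    refine (ContinuousLinearMap.le_opNorm _ _).trans ?_
    rw [hw, mul_one]
    exact hK _
  · exact integrable_const K
  · refine Eventually.of_forall fun w r' _ => ?_
    have h1 : HasDerivAt (fun r : ℝ => r • w) w r' := by
      simpa using (hasDerivAt_id r').smul_const w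
    exact ((hu.differentiable one_ne_zero) (r' • w)).hasFDerivAt.comp_hasDerivAt r' h1

theorem phi'_cont {u : E n → ℝ} (hu : ContDiff ℝ 1 u) (hc : HasCompactSupport u) :
    Continuous (phi' u) := by
  haveI := sg_finite n
  obtain ⟨K, hK⟩ := (hu.continuous_fderiv one_ne_zero).bounded_above_of_compact_support
    (hc.fderiv ℝ)
  unfold phi'
  refine continuous_const.mul ?_
  refine continuous_of_dominated (bound := fun _ => K) ?_ ?_ (integrable_const K) ?_
  · exact fun r => (((hu.continuous_fderiv one_ne_zero).comp (continuous_const_smul r)).clm_apply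
      continuous_id).aestronglyMeasurable
  · intro r
    filter_upwards [sg_ae n] with w hw
    refine (ContinuousLinearMap.le_opNorm _ _).trans ?_
    rw [hw, mul_one]
    exact hK _
  · refine Eventually.of_forall fun w => ?_
    exact ((hu.continuous_fderiv one_ne_zero).comp (continuous_id.smul continuous_const)).clm_apply
      continuous_const

theorem phi'_zero (u : E n → ℝ) : phi' u 0 = 0 := by
  unfold phi'
  simp only [zero_smul]
  have h := sg_inv (n := n) (LinearIsometryEquiv.neg ℝ)
  have h1 := h.integral_comp (LinearIsometryEquiv.neg ℝ).toHomeomorph.measurableEmbedding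
    (fun w => fderiv ℝ u 0 w)
  have h2 : ∀ w : E n, fderiv ℝ u 0 ((LinearIsometryEquiv.neg ℝ : E n ≃ₗᵢ[ℝ] E n) w) =
      -(fderiv ℝ u 0 w) := by
    intro w
    simp
  simp only [h2] at h1
  rw [integral_neg] at h1
  have h3 : ∫ w, fderiv ℝ u 0 w ∂(sg n) = 0 := by linarith
  rw [h3, mul_zero]

theorem phi_support {u : E n → ℝ} (hc : HasCompactSupport u) :
    ∃ R : ℝ, 0 < R ∧ (∀ x : E n, R < ‖x‖ → u x = 0) ∧ ∀ r : ℝ, R < |r| → phi u r = 0 := by
  obtain ⟨R, hR⟩ := hc.isCompact.isBounded.subset_closedBall (0 : E n)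
  have h0 : ∀ x : E n, max R 1 < ‖x‖ → u x = 0 := by
    intro x hx
    apply image_eq_zero_of_notMem_tsupport
    intro hmem
    have h1 := hR hmem
    rw [mem_closedBall_zero_iff] at h1
    exact absurd (le_max_left R 1) (by linarith [h1, le_max_left R 1])
  refine ⟨max R 1, by positivity, h0, fun r hr => ?_⟩
  unfold phi
  rw [integral_eq_zero_of_ae, mul_zero]
  filter_upwards [sg_ae n] with w hw
  apply h0
  rw [norm_smul, hw, mul_one, Real.norm_eq_abs]
  exact hr

/-- the radial part -/
noncomputable def V (u : E n → ℝ) (x : E n) : ℝ := phi u ‖x‖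

theorem V_hasFDerivAt {u : E n → ℝ} (hu : ContDiff ℝ 1 u) (hc : HasCompactSupport u) (x : E n) :
    HasFDerivAt (V u) ((phi' u ‖x‖ * ‖x‖⁻¹) • innerSL ℝ x) x := by
  by_cases hx : x = 0
  · subst hx
    simp only [norm_zero, inv_zero, mul_zero, zero_smul]
    have h1 := phi_hasDerivAt hu hc 0
    rw [phi'_zero] at h1
    have h2 := h1.hasFDerivAt.isLittleO
    rw [hasFDerivAt_iff_isLittleO_nhds_zero]
    rw [Asymptotics.isLittleO_iff] at h2 ⊢
    intro c hc0
    have h3 := h2 hc0
    have h4 : Tendsto (fun y : E n => ‖y‖) (𝓝 0) (𝓝 (0 : ℝ)) := by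
      have := (continuous_norm (E := E n)).tendsto 0
      rwa [norm_zero] at this
    filter_upwards [h4.eventually h3] with y hy
    unfold V
    simpa using hy
  · have hx0 : 0 < ‖x‖ := norm_pos_iff.2 hx
    have h1 : HasFDerivAt (fun y : E n => ‖y‖) (‖x‖⁻¹ • innerSL ℝ x) x := by
      have h2 : HasFDerivAt (fun y : E n => Real.sqrt (‖y‖ ^ 2))
          ((1 / (2 * Real.sqrt (‖x‖ ^ 2))) • (2 • (innerSL ℝ x))) x :=
        ((hasStrictFDerivAt_norm_sq x).hasFDerivAt).sqrt (by positivity)
      have h3 : (fun y : E n => Real.sqrt (‖y‖ ^ 2)) = fun y => ‖y‖ := by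
        funext y
        exact Real.sqrt_sq (norm_nonneg y)
      rw [h3, Real.sqrt_sq hx0.le] at h2
      have h5 : (1 / (2 * ‖x‖)) • (2 • (innerSL ℝ x)) = ‖x‖⁻¹ • innerSL ℝ x := by
        rw [← Nat.cast_smul_eq_nsmul ℝ, smul_smul]
        congr 1
        push_cast
        field_simp
      rw [h5] at h2
      exact h2
    have h4 := (phi_hasDerivAt hu hc ‖x‖).comp_hasFDerivAt x h1
    rw [smul_smul] at h4
    exact h4

theorem V_contDiff {u : E n → ℝ} (hu : ContDiff ℝ 1 u) (hc : HasCompactSupport u) :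
    ContDiff ℝ 1 (V u) := by
  rw [contDiff_one_iff_hasFDerivAt]
  refine ⟨_, ?_, fun x => V_hasFDerivAt hu hc x⟩
  rw [continuous_iff_continuousAt]
  intro x
  by_cases hx : x = 0
  · subst hx
    unfold ContinuousAt
    simp only [norm_zero, inv_zero, mul_zero, zero_smul]
    rw [tendsto_zero_iff_norm_tendsto_zero]
    have h1 : Tendsto (fun y : E n => |phi' u ‖y‖|) (𝓝 0) (𝓝 0) := by
      have h2 : Continuous fun y : E n => |phi' u ‖y‖| :=
        ((phi'_cont hu hc).comp continuous_norm).abs
      have h3 := h2.tendsto 0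
      simpa [phi'_zero] using h3
    refine squeeze_zero (fun _ => norm_nonneg _) (fun y => ?_) h1
    rw [norm_smul, norm_mul, innerSL_apply_norm, Real.norm_eq_abs, Real.norm_eq_abs,
      abs_inv, abs_norm]
    by_cases hy : y = 0
    · simp [hy]
    · have hy0 : ‖y‖ ≠ 0 := norm_ne_zero_iff.2 hy
      rw [mul_assoc, inv_mul_cancel₀ hy0, mul_one]
  · have hx0 : ‖x‖ ≠ 0 := norm_ne_zero_iff.2 hx
    have h1 : ContinuousAt (fun x : E n => phi' u ‖x‖ * ‖x‖⁻¹) x :=
      (((phi'_cont hu hc).comp continuous_norm).continuousAt).mul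
        (continuous_norm.continuousAt.inv₀ hx0)
    have h2 : ContinuousAt (fun x : E n => innerSL ℝ x) x := (innerSL ℝ).continuous.continuousAt
    exact h1.smul h2

theorem V_compact {u : E n → ℝ} (hc : HasCompactSupport u) : HasCompactSupport (V u) := by
  obtain ⟨R, hR, h1, h2⟩ := phi_support hc
  refine HasCompactSupport.intro (isCompact_closedBall (0 : E n) R) fun x hx => ?_
  rw [mem_closedBall_zero_iff, not_le] at hx
  exact h2 _ (by rwa [abs_norm])

end Pool.Agent.W773.Hardy
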