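import Mathlib
import Pool.Agent.W773.Hardy.A10

set_option autoImplicit false
set_option linter.style.haveILetI false
open MeasureTheory Set Filter Topology Metric
open scoped RealInnerProductSpace ContDiff

namespace Pool.Agent.W773.Hardy

open Pool.Agent.H789R2.FR (sg sg_finite sg_ae sg_inv)

variable {n : ℕ}

theorem sg_congr {f g : E n → ℝ} (h : ∀ w : E n, ‖w‖ = 1 → f w = g w) :
    ∫ w, f w ∂(sg n) = ∫ w, g w ∂(sg n) := by
  apply integral_congr_ae
  filter_upwards [sg_ae n] with w hw
  exact h w hw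

theorem norm_smul_sphere {r : ℝ} (hr : 0 < r) {w : E n} (hw : ‖w‖ = 1) : ‖r • w‖ = r := by
  rw [norm_smul, hw, mul_one, Real.norm_eq_abs, abs_of_pos hr]

theorem mean_v (hn : 0 < n) {u : E n → ℝ} (hu : ContDiff ℝ 1 u) (hc : HasCompactSupport u)
    {r : ℝ} (hr : 0 < r) : ∫ w, (u (r • w) - V u (r • w)) ∂(sg n) = 0 := by
  have h1 : ∫ w, (u (r • w) - V u (r • w)) ∂(sg n) = ∫ w, (u (r • w) - phi u r * 1) ∂(sg n) :=
    sg_congr fun w hw => by unfold V; rw [norm_smul_sphere hr hw, mul_one]
  have j1 : Integrable (fun w : E n => u (r • w)) (sg n) :=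
    sg_integrable (hu.continuous.comp (continuous_const_smul r))
  have j2 : Integrable (fun _ : E n => phi u r * (1 : ℝ)) (sg n) := sg_integrable continuous_const
  rw [h1, integral_sub j1 j2, integral_const_mul]
  change (∫ w, u (r • w) ∂(sg n)) - phi u r * S n = 0
  unfold phi
  have := (S_pos hn).ne'
  field_simp
  ring

theorem mean_dv (hn : 0 < n) {u : E n → ℝ} (hu : ContDiff ℝ 1 u) (hc : HasCompactSupport u)
    {r : ℝ} (hr : 0 < r) :
    ∫ w, (fderiv ℝ u (r • w) w - fderiv ℝ (V u) (r • w) w) ∂(sg n) = 0 := by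
  have h1 : ∫ w, (fderiv ℝ u (r • w) w - fderiv ℝ (V u) (r • w) w) ∂(sg n) =
      ∫ w, (fderiv ℝ u (r • w) w - phi' u r * 1) ∂(sg n) :=
    sg_congr fun w hw => by
      rw [(V_hasFDerivAt hu hc (r • w)).fderiv, norm_smul_sphere hr hw]
      simp only [smul_apply, smul_eq_mul, innerSL_apply_apply]
      rw [inner_smul_left, real_inner_self_eq_norm_sq, hw]
      simp only [conj_trivial]
      field_simp
  have j1 : Integrable (fun w : E n => fderiv ℝ u (r • w) w) (sg n) :=
    sg_integrable (((hu.continuous_fderiv one_ne_zero).comp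
      (continuous_const_smul r)).clm_apply continuous_id)
  have j2 : Integrable (fun _ : E n => phi' u r * (1 : ℝ)) (sg n) := sg_integrable continuous_const
  rw [h1, integral_sub j1 j2, integral_const_mul]
  change (∫ w, fderiv ℝ u (r • w) w ∂(sg n)) - phi' u r * S n = 0
  unfold phi'
  have := (S_pos hn).ne'
  field_simp
  ring

theorem grad_V {u : E n → ℝ} (hu : ContDiff ℝ 1 u) (hc : HasCompactSupport u) (x : E n) :
    grad (V u) x = (phi' u ‖x‖ * ‖x‖⁻¹) • x := by
  unfold grad
  rw [(V_hasFDerivAt hu hc x).fderiv]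
  rw [LinearIsometryEquiv.symm_apply_eq]
  ext y
  simp [InnerProductSpace.toDual_apply_apply]

theorem radial_mul_mean (hn : 0 < n) {u : E n → ℝ} (hu : ContDiff ℝ 1 u)
    (hc : HasCompactSupport u) (h : ℝ → ℝ)
    (hi : Integrable fun x : E n => h ‖x‖ * (u x - V u x)) :
    ∫ x : E n, h ‖x‖ * (u x - V u x) = 0 := by
  refine radial_orth hn hi fun r hr => ?_
  have h1 : ∫ w, h ‖r • w‖ * (u (r • w) - V u (r • w)) ∂(sg n) =
      ∫ w, h r * (u (r • w) - V u (r • w)) ∂(sg n) :=
    sg_congr fun w hw => by rw [norm_smul_sphere hr hw]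
  rw [h1, integral_const_mul, mean_v hn hu hc hr, mul_zero]

theorem num_split (hn : 0 < n) {u : E n → ℝ} (hu : ContDiff ℝ 1 u)
    (hc : HasCompactSupport u) (β : ℝ) :
    num (-β) u = num (-β) (V u) + num (-β) (fun x => u x - V u x) := by
  have hV := V_contDiff hu hc
  have hVc := V_compact hc
  have hv : ContDiff ℝ 1 (fun x => u x - V u x) := hu.sub hV
  have hvc : HasCompactSupport (fun x => u x - V u x) := hc.sub hVc
  have hfv : ∀ x, fderiv ℝ (fun x => u x - V u x) x = fderiv ℝ u x - fderiv ℝ (V u) x := fun x =>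
    fderiv_fun_sub ((hu.differentiable one_ne_zero) x) ((hV.differentiable one_ne_zero) x)
  have hgv : ∀ x, grad (fun x => u x - V u x) x = grad u x - grad (V u) x := by
    intro x
    unfold grad
    rw [hfv, map_sub]
  have hcross_c : Continuous fun x : E n => D x ^ (-β) *
      ⟪grad (fun x => u x - V u x) x, grad (V u) x⟫ :=
    (Dpow_cont _).mul ((grad_cont hv).inner (grad_cont hV))
  have hcross_s : HasCompactSupport fun x : E n => D x ^ (-β) *
      ⟪grad (fun x => u x - V u x) x, grad (V u) x⟫ := by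
    refine HasCompactSupport.mul_left ?_
    refine HasCompactSupport.intro (hvc.fderiv ℝ) fun x hx => ?_
    unfold grad
    rw [image_eq_zero_of_notMem_tsupport hx]
    simp
  have hcross_i : Integrable fun x : E n => D x ^ (-β) *
      ⟪grad (fun x => u x - V u x) x, grad (V u) x⟫ :=
    hcross_c.integrable_of_hasCompactSupport hcross_s
  have hcross : ∫ x : E n, D x ^ (-β) * ⟪grad (fun x => u x - V u x) x, grad (V u) x⟫ = 0 := by
    refine radial_orth hn hcross_i fun r hr => ?_
    have h1 : ∫ w, D (r • w) ^ (-β) * ⟪grad (fun x => u x - V u x) (r • w),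
        grad (V u) (r • w)⟫ ∂(sg n) =
        ∫ w, ((1 + r ^ 2) ^ (-β) * phi' u r) *
          (fderiv ℝ u (r • w) w - fderiv ℝ (V u) (r • w) w) ∂(sg n) :=
      sg_congr fun w hw => by
        rw [grad_inner, hfv, grad_V hu hc, norm_smul_sphere hr hw]
        unfold D
        rw [norm_smul_sphere hr hw, map_smul, map_smul]
        simp only [smul_eq_mul, sub_apply]
        field_simp
    rw [h1, integral_const_mul, mean_dv hn hu hc hr, mul_zero]
  have hpt : ∀ x : E n, D x ^ (-β) * ‖fderiv ℝ u x‖ ^ 2 =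
      D x ^ (-β) * ‖fderiv ℝ (V u) x‖ ^ 2 +
      D x ^ (-β) * ‖fderiv ℝ (fun x => u x - V u x) x‖ ^ 2 +
      2 * (D x ^ (-β) * ⟪grad (fun x => u x - V u x) x, grad (V u) x⟫) := by
    intro x
    rw [← grad_norm, ← grad_norm, ← grad_norm]
    have h1 : grad u x = grad (fun x => u x - V u x) x + grad (V u) x := by
      rw [hgv]; abel
    rw [h1, norm_add_sq_real]
    ring
  have i1 := i_num (-β) (V u) hV hVc
  have i2 := i_num (-β) (fun x => u x - V u x) hv hvc
  have i12 : Integrable fun x : E n => D x ^ (-β) * ‖fderiv ℝ (V u) x‖ ^ 2 +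
      D x ^ (-β) * ‖fderiv ℝ (fun x => u x - V u x) x‖ ^ 2 := i1.add i2
  unfold num
  rw [integral_congr_ae (Eventually.of_forall hpt), integral_add i12
    (hcross_i.const_mul 2), integral_add i1 i2, integral_const_mul, hcross]
  ring

theorem den_split (hn : 0 < n) {u : E n → ℝ} (hu : ContDiff ℝ 1 u)
    (hc : HasCompactSupport u) {β : ℝ} (hβ : -β - 1 < -(n : ℝ) / 2) (c : ℝ) :
    ∫ x : E n, D x ^ (-β - 1) * (u x - c) ^ 2 =
      (∫ x : E n, D x ^ (-β - 1) * (V u x - c) ^ 2) + den (-β) (fun x => u x - V u x) := by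
  have hV := V_contDiff hu hc
  have hVc := V_compact hc
  have hv : ContDiff ℝ 1 (fun x => u x - V u x) := hu.sub hV
  have hvc : HasCompactSupport (fun x => u x - V u x) := hc.sub hVc
  have iD := Dpow_integrable hβ
  have i1 : Integrable fun x : E n => D x ^ (-β - 1) * (V u x - c) ^ 2 := by
    have j1 : Integrable fun x : E n => D x ^ (-β - 1) * V u x ^ 2 :=
      i_den _ _ hV.continuous hVc
    have j2 : Integrable fun x : E n => D x ^ (-β - 1) * V u x := by
      refine Continuous.integrable_of_hasCompactSupport ?_ hVc.mul_left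
      exact (Dpow_cont _).mul hV.continuous
    refine ((j1.sub (j2.const_mul (2 * c))).add (iD.const_mul (c ^ 2))).congr
      (Eventually.of_forall fun x => ?_)
    simp only [Pi.add_apply, Pi.sub_apply]
    ring
  have i2 : Integrable fun x : E n => D x ^ (-β - 1) * (u x - V u x) ^ 2 :=
    i_den _ _ hv.continuous hvc
  have i3 : Integrable fun x : E n => ((1 + ‖x‖ ^ 2) ^ (-β - 1) * (phi u ‖x‖ - c)) *
      (u x - V u x) := by
    refine Continuous.integrable_of_hasCompactSupport ?_ hvc.mul_left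
    exact ((Dpow_cont _).mul (hV.continuous.sub continuous_const)).mul hv.continuous
  have h3 := radial_mul_mean hn hu hc (fun r => (1 + r ^ 2) ^ (-β - 1) * (phi u r - c)) i3
  have hpt : ∀ x : E n, D x ^ (-β - 1) * (u x - c) ^ 2 =
      D x ^ (-β - 1) * (V u x - c) ^ 2 + D x ^ (-β - 1) * (u x - V u x) ^ 2 +
      2 * (((1 + ‖x‖ ^ 2) ^ (-β - 1) * (phi u ‖x‖ - c)) * (u x - V u x)) := by
    intro x
    unfold D V
    ring
  have i12 : Integrable fun x : E n => D x ^ (-β - 1) * (V u x - c) ^ 2 +
      D x ^ (-β - 1) * (u x - V u x) ^ 2 := i1.add i2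
  rw [integral_congr_ae (Eventually.of_forall hpt), integral_add i12 (i3.const_mul 2),
    integral_add i1 i2, integral_const_mul, h3]
  unfold den
  ring

theorem pair_zero (hn : 0 < n) {u : E n → ℝ} (hu : ContDiff ℝ 1 u)
    (hc : HasCompactSupport u) {q : ℝ} (hq : q < -(n : ℝ) / 2) :
    ∫ p : E n × E n, (u p.1 - V u p.1) * (u p.2 - V u p.2) * M q p = 0 := by
  have hV := V_contDiff hu hc
  have hVc := V_compact hc
  have hv : ContDiff ℝ 1 (fun x => u x - V u x) := hu.sub hV
  have hvc : HasCompactSupport (fun x => u x - V u x) := hc.sub hVc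
  have hi : Integrable fun p : E n × E n => (u p.1 - V u p.1) * (u p.2 - V u p.2) * M q p := by
    obtain ⟨K, hK⟩ := hv.continuous.bounded_above_of_compact_support hvc
    have h1 := (M_integrable hq hv.continuous hvc).norm.const_mul K
    refine h1.mono' ?_ ?_
    · exact (((hv.continuous.comp continuous_fst).mul
        (hv.continuous.comp continuous_snd)).mul (M_cont q)).aestronglyMeasurable
    · refine Eventually.of_forall fun p => ?_
      rw [norm_mul, norm_mul, norm_mul]
      have h2 := hK p.2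
      calc ‖u p.1 - V u p.1‖ * ‖u p.2 - V u p.2‖ * ‖M q p‖
          ≤ ‖u p.1 - V u p.1‖ * K * ‖M q p‖ := by
            apply mul_le_mul_of_nonneg_right _ (norm_nonneg _)
            exact mul_le_mul_of_nonneg_left h2 (norm_nonneg _)
        _ = _ := by ring
  change ∫ p : E n × E n, (u p.1 - V u p.1) * (u p.2 - V u p.2) * M q p ∂(volume.prod volume) = 0
  rw [integral_prod _ hi]
  have h3 : ∀ y : E n, ∫ w : E n, (u y - V u y) * (u w - V u w) * M q (y, w) = 0 := by
    intro y
    have i4 : Integrable fun w : E n => (1 + ‖y‖ ^ 2 + ‖w‖ ^ 2) ^ q * (u w - V u w) := by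
      refine Continuous.integrable_of_hasCompactSupport ?_ hvc.mul_left
      exact ((M_cont q).comp (continuous_const.prodMk continuous_id)).mul hv.continuous
    have h4 := radial_mul_mean hn hu hc (fun r => (1 + ‖y‖ ^ 2 + r ^ 2) ^ q) i4
    have h5 : ∫ w : E n, (u y - V u y) * (u w - V u w) * M q (y, w) =
        (u y - V u y) * ∫ w : E n, (1 + ‖y‖ ^ 2 + ‖w‖ ^ 2) ^ q * (u w - V u w) := by
      rw [← integral_const_mul]
      apply integral_congr_ae
      refine Eventually.of_forall fun w => ?_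
      simp only [M]
      ring
    rw [h5, h4, mul_zero]
  simp only [h3]
  simp

end Pool.Agent.W773.Hardy
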