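import Mathlib

set_option autoImplicit false
set_option linter.style.haveILetI false
open MeasureTheory Set Filter Topology Metric
open scoped RealInnerProductSpace ContDiff ENNReal

namespace Pool.Agent.W773.Hardy

theorem swapK (P ψ : ℝ → ℝ≥0∞) (hP : Measurable P) (hψ : Measurable ψ) (K : Set (ℝ × ℝ))
    (hK : MeasurableSet K) :
    ∫⁻ r, P r * ∫⁻ s in {s | (r, s) ∈ K}, ψ s = ∫⁻ s, ψ s * ∫⁻ r in {r | (r, s) ∈ K}, P r := by
  have h1 : ∀ r, P r * ∫⁻ s in {s | (r, s) ∈ K}, ψ s =
      ∫⁻ s, K.indicator (fun p : ℝ × ℝ => P p.1 * ψ p.2) (r, s) := by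
    intro r
    have hm : MeasurableSet {s | (r, s) ∈ K} := measurable_prodMk_left hK
    rw [← lintegral_const_mul _ hψ, ← lintegral_indicator hm]
    rfl
  have h2 : ∀ s, ψ s * ∫⁻ r in {r | (r, s) ∈ K}, P r =
      ∫⁻ r, K.indicator (fun p : ℝ × ℝ => P p.1 * ψ p.2) (r, s) := by
    intro s
    have hm : MeasurableSet {r | (r, s) ∈ K} := measurable_prodMk_right hK
    rw [← lintegral_const_mul _ hP, ← lintegral_indicator hm]
    apply lintegral_congr
    intro r
    simp only [indicator]
    by_cases h : (r, s) ∈ K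
    · simp [h, mul_comm]
    · simp [h]
  simp only [h1, h2]
  apply lintegral_lintegral_swap
  exact (((hP.comp measurable_fst).mul (hψ.comp measurable_snd)).indicator hK).aemeasurable

theorem cs_interval {φ φ' g g' : ℝ → ℝ} (hφ : ∀ r, HasDerivAt φ (φ' r) r) (hφc : Continuous φ')
    (hg : ∀ r, HasDerivAt g (g' r) r) (hgc : Continuous g') {x y : ℝ} (hxy : x < y)
    (hpos : ∀ r ∈ Icc x y, 0 < g' r) :
    ENNReal.ofReal ((φ y - φ x) ^ 2) ≤
      ENNReal.ofReal (g y - g x) * ∫⁻ s in Ioc x y, ENNReal.ofReal (φ' s ^ 2 / g' s) := by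
  have hG : ∫ s in x..y, g' s = g y - g x :=
    intervalIntegral.integral_eq_sub_of_hasDerivAt (fun r _ => hg r) (hgc.intervalIntegrable _ _)
  have hΔ : ∫ s in x..y, φ' s = φ y - φ x :=
    intervalIntegral.integral_eq_sub_of_hasDerivAt (fun r _ => hφ r) (hφc.intervalIntegrable _ _)
  have hcont : ContinuousOn (fun s => φ' s ^ 2 / g' s) (Icc x y) :=
    (hφc.pow 2).continuousOn.div hgc.continuousOn fun s hs => (hpos s hs).ne'
  have hBi : IntervalIntegrable (fun s => φ' s ^ 2 / g' s) volume x y := by
    apply ContinuousOn.intervalIntegrable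
    rwa [uIcc_of_le hxy.le]
  have hGpos : 0 < g y - g x := by
    rw [← hG]
    exact intervalIntegral.intervalIntegral_pos_of_pos_on (hgc.intervalIntegrable _ _)
      (fun s hs => hpos s ⟨hs.1.le, hs.2.le⟩) hxy
  set B := ∫ s in x..y, φ' s ^ 2 / g' s with hB
  set Δ := φ y - φ x with hΔd
  set G := g y - g x with hGd
  have key : Δ ^ 2 ≤ G * B := by
    have h1 : 0 ≤ ∫ s in x..y, (φ' s ^ 2 / g' s - 2 * (Δ / G) * φ' s + (Δ / G) ^ 2 * g' s) := by
      apply intervalIntegral.integral_nonneg hxy.le
      intro s hs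
      have hp := hpos s hs
      have : φ' s ^ 2 / g' s - 2 * (Δ / G) * φ' s + (Δ / G) ^ 2 * g' s =
          (φ' s - (Δ / G) * g' s) ^ 2 / g' s := by
        field_simp
        ring
      rw [this]
      positivity
    rw [intervalIntegral.integral_add (hBi.sub ((hφc.intervalIntegrable _ _).const_mul _))
      ((hgc.intervalIntegrable _ _).const_mul _), intervalIntegral.integral_sub hBi
      ((hφc.intervalIntegrable _ _).const_mul _), intervalIntegral.integral_const_mul,
      intervalIntegral.integral_const_mul, hG, hΔ, ← hB] at h1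
    have h2 : B - 2 * (Δ / G) * Δ + (Δ / G) ^ 2 * G = B - Δ ^ 2 / G := by
      field_simp
      ring
    rw [h2] at h1
    have h3 : Δ ^ 2 / G ≤ B := by linarith
    rw [div_le_iff₀ hGpos] at h3
    linarith
  have hB2 : ENNReal.ofReal B = ∫⁻ s in Ioc x y, ENNReal.ofReal (φ' s ^ 2 / g' s) := by
    rw [hB, intervalIntegral.integral_of_le hxy.le, ofReal_integral_eq_lintegral_ofReal]
    · exact (intervalIntegrable_iff_integrableOn_Ioc_of_le hxy.le).1 hBi
    · refine (ae_restrict_iff' measurableSet_Ioc).2 (Eventually.of_forall fun s hs => ?_)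
      have := hpos s ⟨hs.1.le, hs.2⟩
      simp only [Pi.zero_apply]
      positivity
  rw [← hB2, ← ENNReal.ofReal_mul hGpos.le]
  exact ENNReal.ofReal_le_ofReal key

/-- Hypotheses of the one-dimensional inequality. -/
structure OneD (m e g g' N N' : ℝ → ℝ) (a Λ : ℝ) : Prop where
  a0 : 0 < a
  Λ0 : 0 < Λ
  hg : ∀ r, HasDerivAt g (g' r) r
  hg'c : Continuous g'
  hg'pos : ∀ r, 0 < r → 0 < g' r
  ga : g a = 0
  hN : ∀ r, HasDerivAt N (N' r) r
  hN'c : Continuous N'
  hNe : ∀ r, N r = e r * g' r
  N0 : N 0 = 0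
  Nnn : ∀ r, 0 ≤ r → 0 ≤ N r
  mc : Continuous m
  mnn : ∀ r, 0 ≤ r → 0 ≤ m r
  right : ∀ r, a ≤ r → Λ * (m r * g r) ≤ -N' r
  left : ∀ r, 0 ≤ r → r ≤ a → Λ * (m r * (-g r)) ≤ N' r

namespace OneD

variable {m e g g' N N' : ℝ → ℝ} {a Λ : ℝ} (h : OneD m e g g' N N' a Λ)
include h

theorem gc : Continuous g :=
  continuous_iff_continuousAt.2 fun r => (h.hg r).continuousAt

theorem g_mono {x y : ℝ} (hx : 0 ≤ x) (hxy : x < y) : g x < g y := by
  have h1 : StrictMonoOn g (Ici 0) := by
    apply strictMonoOn_of_deriv_pos (convex_Ici 0) h.gc.continuousOn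
    intro r hr
    rw [interior_Ici] at hr
    rw [(h.hg r).deriv]
    exact h.hg'pos r hr
  exact h1 hx (hx.trans hxy.le) hxy

theorem g_nonneg {r : ℝ} (hr : a ≤ r) : 0 ≤ g r := by
  rcases hr.eq_or_lt with h1 | h1
  · rw [← h1, h.ga]
  · have := h.g_mono h.a0.le h1
    rw [h.ga] at this
    exact this.le

theorem g_nonpos {r : ℝ} (hr0 : 0 ≤ r) (hr : r ≤ a) : g r ≤ 0 := by
  rcases hr.eq_or_lt with h1 | h1
  · rw [h1, h.ga]
  · have := h.g_mono hr0 h1
    rw [h.ga] at this
    exact this.le

theorem tail_right {s : ℝ} (hs : a ≤ s) :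
    ∫⁻ r in Ici s, ENNReal.ofReal (m r * g r) ≤ ENNReal.ofReal (N s / Λ) := by
  have hs0 : 0 ≤ s := h.a0.le.trans hs
  have hU : Ici s = ⋃ k : ℕ, Icc s (s + k) := by
    ext x
    simp only [mem_Ici, mem_iUnion, mem_Icc]
    constructor
    · intro hx
      obtain ⟨k, hk⟩ := exists_nat_ge (x - s)
      exact ⟨k, hx, by linarith⟩
    · rintro ⟨k, hk⟩
      exact hk.1
  rw [hU, setLIntegral_iUnion_of_directed]
  · apply iSup_le
    intro k
    have hk : s ≤ s + k := by
      have : (0 : ℝ) ≤ k := Nat.cast_nonneg k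
      linarith
    have hcont : Continuous fun r => m r * g r := h.mc.mul h.gc
    have hres : (volume : Measure ℝ).restrict (Icc s (s + k)) = volume.restrict (Ioc s (s + k)) :=
      Measure.restrict_congr_set Ioc_ae_eq_Icc.symm
    rw [hres, ← ofReal_integral_eq_lintegral_ofReal]
    · apply ENNReal.ofReal_le_ofReal
      rw [← intervalIntegral.integral_of_le hk, le_div_iff₀ h.Λ0]
      have h1 : ∫ r in s..(s + k), N' r = N (s + k) - N s :=
        intervalIntegral.integral_eq_sub_of_hasDerivAt (fun r _ => h.hN r)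
          (h.hN'c.intervalIntegrable _ _)
      have h2 : ∫ r in s..(s + k), Λ * (m r * g r) ≤ ∫ r in s..(s + k), -N' r := by
        apply intervalIntegral.integral_mono_on hk
        · exact (hcont.const_mul Λ).intervalIntegrable _ _
        · exact h.hN'c.neg.intervalIntegrable _ _
        · intro r hr
          exact h.right r (hs.trans hr.1)
      rw [intervalIntegral.integral_const_mul, intervalIntegral.integral_neg, h1] at h2
      have h3 := h.Nnn (s + k) (hs0.trans hk)
      linarith
    · exact (hcont.continuousOn.integrableOn_compact isCompact_Icc).mono_set Ioc_subset_Icc_self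
    · refine (ae_restrict_iff' measurableSet_Ioc).2 (Eventually.of_forall fun r hr => ?_)
      exact mul_nonneg (h.mnn r (hs0.trans hr.1.le)) (h.g_nonneg (hs.trans hr.1.le))
  · intro i j
    refine ⟨max i j, ?_, ?_⟩
    · apply Icc_subset_Icc_right
      have : (i : ℝ) ≤ ((max i j : ℕ) : ℝ) := by exact_mod_cast le_max_left i j
      linarith
    · apply Icc_subset_Icc_right
      have : (j : ℝ) ≤ ((max i j : ℕ) : ℝ) := by exact_mod_cast le_max_right i j
      linarith

theorem tail_left {s : ℝ} (hs0 : 0 ≤ s) (hs : s ≤ a) :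
    ∫⁻ r in Ioc 0 s, ENNReal.ofReal (m r * (-g r)) ≤ ENNReal.ofReal (N s / Λ) := by
  have hcont : Continuous fun r => m r * (-g r) := h.mc.mul h.gc.neg
  rw [← ofReal_integral_eq_lintegral_ofReal]
  · apply ENNReal.ofReal_le_ofReal
    rw [← intervalIntegral.integral_of_le hs0, le_div_iff₀ h.Λ0]
    have h1 : ∫ r in (0:ℝ)..s, N' r = N s - N 0 :=
      intervalIntegral.integral_eq_sub_of_hasDerivAt (fun r _ => h.hN r)
        (h.hN'c.intervalIntegrable _ _)
    have h2 : ∫ r in (0:ℝ)..s, Λ * (m r * (-g r)) ≤ ∫ r in (0:ℝ)..s, N' r := by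
      apply intervalIntegral.integral_mono_on hs0
      · exact (hcont.const_mul Λ).intervalIntegrable _ _
      · exact h.hN'c.intervalIntegrable _ _
      · intro r hr
        exact h.left r hr.1 (hr.2.trans hs)
    rw [intervalIntegral.integral_const_mul, h1, h.N0] at h2
    linarith
  · exact (hcont.continuousOn.integrableOn_compact isCompact_Icc).mono_set Ioc_subset_Icc_self
  · refine (ae_restrict_iff' measurableSet_Ioc).2 (Eventually.of_forall fun r hr => ?_)
    exact mul_nonneg (h.mnn r hr.1.le) (by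
      have := h.g_nonpos hr.1.le (hr.2.trans hs)
      linarith)

theorem main {φ φ' : ℝ → ℝ} (hφ : ∀ r, HasDerivAt φ (φ' r) r) (hφc : Continuous φ') :
    ∫⁻ r in Ioi (0 : ℝ), ENNReal.ofReal (m r * (φ r - φ a) ^ 2) ≤
      ∫⁻ s in Ioi (0 : ℝ), ENNReal.ofReal (e s * φ' s ^ 2 / Λ) := by
  have hφcont : Continuous φ := continuous_iff_continuousAt.2 fun r => (hφ r).continuousAt
  have hψ : Measurable fun s => ENNReal.ofReal (φ' s ^ 2 / g' s) :=
    (((hφc.measurable.pow_const 2).div h.hg'c.measurable)).ennreal_ofReal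
  have hR : ∫⁻ r in Ioi a, ENNReal.ofReal (m r * (φ r - φ a) ^ 2) ≤
      ∫⁻ s in Ioi a, ENNReal.ofReal (e s * φ' s ^ 2 / Λ) := by
    set P : ℝ → ℝ≥0∞ := (Ioi a).indicator fun r => ENNReal.ofReal (m r * g r) with hP
    have hPm : Measurable P :=
      ((h.mc.mul h.gc).measurable.ennreal_ofReal).indicator measurableSet_Ioi
    have hK : MeasurableSet {p : ℝ × ℝ | a < p.2 ∧ p.2 ≤ p.1} :=
      (measurableSet_lt measurable_const measurable_snd).inter
        (measurableSet_le measurable_snd measurable_fst)
    calc ∫⁻ r in Ioi a, ENNReal.ofReal (m r * (φ r - φ a) ^ 2)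
        ≤ ∫⁻ r, P r * ∫⁻ s in {s | (r, s) ∈ {p : ℝ × ℝ | a < p.2 ∧ p.2 ≤ p.1}},
            ENNReal.ofReal (φ' s ^ 2 / g' s) := by
          rw [← lintegral_indicator measurableSet_Ioi]
          apply lintegral_mono
          intro r
          beta_reduce
          by_cases hr : r ∈ Ioi a
          · rw [indicator_of_mem hr, hP, indicator_of_mem hr]
            have hr' : a < r := hr
            have hset : {s | (r, s) ∈ {p : ℝ × ℝ | a < p.2 ∧ p.2 ≤ p.1}} = Ioc a r := by
              ext s; simp
            rw [hset]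
            have h1 := cs_interval hφ hφc h.hg h.hg'c hr'
              (fun s hs => h.hg'pos s (h.a0.trans_le hs.1))
            rw [h.ga, sub_zero] at h1
            have hm := h.mnn r (h.a0.trans hr').le
            rw [ENNReal.ofReal_mul hm, ENNReal.ofReal_mul hm, mul_assoc]
            exact mul_le_mul_right h1 _
          · rw [indicator_of_notMem hr]
            exact bot_le
      _ = ∫⁻ s, ENNReal.ofReal (φ' s ^ 2 / g' s) *
            ∫⁻ r in {r | (r, s) ∈ {p : ℝ × ℝ | a < p.2 ∧ p.2 ≤ p.1}}, P r :=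
          swapK P _ hPm hψ _ hK
      _ ≤ ∫⁻ s in Ioi a, ENNReal.ofReal (e s * φ' s ^ 2 / Λ) := by
          rw [← lintegral_indicator measurableSet_Ioi]
          apply lintegral_mono
          intro s
          beta_reduce
          by_cases hs : s ∈ Ioi a
          · rw [indicator_of_mem hs]
            have hs' : a < s := hs
            have hset : {r | (r, s) ∈ {p : ℝ × ℝ | a < p.2 ∧ p.2 ≤ p.1}} = Ici s := by
              ext r; simp [hs']
            rw [hset]
            have h1 : ∫⁻ r in Ici s, P r ≤ ENNReal.ofReal (N s / Λ) := by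
              refine le_trans (le_of_eq ?_) (h.tail_right hs'.le)
              apply setLIntegral_congr_fun measurableSet_Ici
              intro r hr
              rw [hP]
              simp only
              rw [indicator_of_mem]
              exact lt_of_lt_of_le hs' hr
            have hg0 := h.hg'pos s (h.a0.trans hs')
            calc ENNReal.ofReal (φ' s ^ 2 / g' s) * ∫⁻ r in Ici s, P r
                ≤ ENNReal.ofReal (φ' s ^ 2 / g' s) * ENNReal.ofReal (N s / Λ) :=
                  mul_le_mul_right h1 _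
              _ = ENNReal.ofReal (e s * φ' s ^ 2 / Λ) := by
                  rw [← ENNReal.ofReal_mul (by positivity)]
                  congr 1
                  rw [h.hNe]
                  field_simp
          · have hset : {r | (r, s) ∈ {p : ℝ × ℝ | a < p.2 ∧ p.2 ≤ p.1}} = ∅ := by
              ext r
              simp only [mem_Ioi] at hs
              simp [hs]
            rw [hset, indicator_of_notMem hs]
            simp
  have hL : ∫⁻ r in Ioc 0 a, ENNReal.ofReal (m r * (φ r - φ a) ^ 2) ≤
      ∫⁻ s in Ioc 0 a, ENNReal.ofReal (e s * φ' s ^ 2 / Λ) := by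
    set P : ℝ → ℝ≥0∞ := (Ioc 0 a).indicator fun r => ENNReal.ofReal (m r * (-g r)) with hP
    have hPm : Measurable P :=
      ((h.mc.mul h.gc.neg).measurable.ennreal_ofReal).indicator measurableSet_Ioc
    have hK : MeasurableSet {p : ℝ × ℝ | 0 < p.1 ∧ p.1 < p.2 ∧ p.2 ≤ a} :=
      (measurableSet_lt measurable_const measurable_fst).inter
        ((measurableSet_lt measurable_fst measurable_snd).inter
          (measurableSet_le measurable_snd measurable_const))
    calc ∫⁻ r in Ioc 0 a, ENNReal.ofReal (m r * (φ r - φ a) ^ 2)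
        ≤ ∫⁻ r, P r * ∫⁻ s in {s | (r, s) ∈ {p : ℝ × ℝ | 0 < p.1 ∧ p.1 < p.2 ∧ p.2 ≤ a}},
            ENNReal.ofReal (φ' s ^ 2 / g' s) := by
          rw [← lintegral_indicator measurableSet_Ioc]
          apply lintegral_mono
          intro r
          beta_reduce
          by_cases hr : r ∈ Ioc 0 a
          · rw [indicator_of_mem hr, hP, indicator_of_mem hr]
            rcases hr.2.eq_or_lt with hra | hra
            · rw [hra]
              simp
            · have hset : {s | (r, s) ∈ {p : ℝ × ℝ | 0 < p.1 ∧ p.1 < p.2 ∧ p.2 ≤ a}} =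
                  Ioc r a := by
                ext s; simp [hr.1]
              rw [hset]
              have h1 := cs_interval hφ hφc h.hg h.hg'c hra
                (fun s hs => h.hg'pos s (hr.1.trans_le hs.1))
              rw [h.ga, zero_sub] at h1
              have hm := h.mnn r hr.1.le
              have h2 : (φ r - φ a) ^ 2 = (φ a - φ r) ^ 2 := by ring
              rw [h2, ENNReal.ofReal_mul hm, ENNReal.ofReal_mul hm, mul_assoc]
              exact mul_le_mul_right h1 _
          · rw [indicator_of_notMem hr]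
            exact bot_le
      _ = ∫⁻ s, ENNReal.ofReal (φ' s ^ 2 / g' s) *
            ∫⁻ r in {r | (r, s) ∈ {p : ℝ × ℝ | 0 < p.1 ∧ p.1 < p.2 ∧ p.2 ≤ a}}, P r :=
          swapK P _ hPm hψ _ hK
      _ ≤ ∫⁻ s in Ioc 0 a, ENNReal.ofReal (e s * φ' s ^ 2 / Λ) := by
          rw [← lintegral_indicator measurableSet_Ioc]
          apply lintegral_mono
          intro s
          beta_reduce
          by_cases hs : s ∈ Ioc 0 a
          · rw [indicator_of_mem hs]
            have hset : {r | (r, s) ∈ {p : ℝ × ℝ | 0 < p.1 ∧ p.1 < p.2 ∧ p.2 ≤ a}} =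
                Ioo 0 s := by
              ext r; simp [hs.2]
            rw [hset]
            have h1 : ∫⁻ r in Ioo 0 s, P r ≤ ENNReal.ofReal (N s / Λ) := by
              refine le_trans ?_ (h.tail_left hs.1.le hs.2)
              refine le_trans (lintegral_mono_set Ioo_subset_Ioc_self) (le_of_eq ?_)
              apply setLIntegral_congr_fun measurableSet_Ioc
              intro r hr
              rw [hP]
              simp only
              rw [indicator_of_mem]
              exact ⟨hr.1, hr.2.trans hs.2⟩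
            have hg0 := h.hg'pos s hs.1
            calc ENNReal.ofReal (φ' s ^ 2 / g' s) * ∫⁻ r in Ioo 0 s, P r
                ≤ ENNReal.ofReal (φ' s ^ 2 / g' s) * ENNReal.ofReal (N s / Λ) :=
                  mul_le_mul_right h1 _
              _ = ENNReal.ofReal (e s * φ' s ^ 2 / Λ) := by
                  rw [← ENNReal.ofReal_mul (by positivity)]
                  congr 1
                  rw [h.hNe]
                  field_simp
          · rw [indicator_of_notMem hs]
            have hset : {r | (r, s) ∈ {p : ℝ × ℝ | 0 < p.1 ∧ p.1 < p.2 ∧ p.2 ≤ a}} = ∅ := by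
              ext r
              simp only [mem_Ioc, not_and_or, not_lt, not_le] at hs
              simp only [mem_ofPred_eq, mem_empty_iff_false, iff_false]
              rintro ⟨h1, h2, h3⟩
              rcases hs with hs | hs <;> linarith
            rw [hset]
            simp
  have hU : Ioi (0 : ℝ) = Ioc 0 a ∪ Ioi a := (Ioc_union_Ioi_eq_Ioi h.a0.le).symm
  have hdis : Disjoint (Ioc (0 : ℝ) a) (Ioi a) := by
    rw [Set.disjoint_left]
    intro x hx hx'
    exact absurd hx.2 (not_le.2 hx')
  rw [hU, lintegral_union measurableSet_Ioi hdis, lintegral_union measurableSet_Ioi hdis]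
  exact add_le_add hL hR

end OneD

end Pool.Agent.W773.Hardy
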