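import Mathlib
import Pool.Agent.W773.Hardy.A11
import Pool.Agent.W773.Hardy.A12

set_option autoImplicit false
set_option linter.style.haveILetI false
open MeasureTheory Set Filter Topology Metric
open scoped RealInnerProductSpace ContDiff ENNReal

namespace Pool.Agent.W773.Hardy

open Pool.Agent.H789R2.FR (sg sg_finite sg_ae sg_inv)

variable {n : ℕ}

theorem base_pos (r : ℝ) : 0 < 1 + r ^ 2 := by positivity

theorem base_cont (p : ℝ) : Continuous fun r : ℝ => (1 + r ^ 2) ^ p := by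
  refine Continuous.rpow_const (by fun_prop) fun r => Or.inl (base_pos r).ne'

theorem base_deriv (p r : ℝ) :
    HasDerivAt (fun r : ℝ => (1 + r ^ 2) ^ p) (2 * p * r * (1 + r ^ 2) ^ (p - 1)) r := by
  have h1 : HasDerivAt (fun r : ℝ => 1 + r ^ 2) (2 * r) r := by
    have := (hasDerivAt_pow 2 r).const_add 1
    simpa using this
  have h2 := h1.rpow_const (p := p) (Or.inl (base_pos r).ne')
  convert h2 using 1
  ring

theorem N_deriv (n : ℕ) (q r : ℝ) :
    HasDerivAt (fun r : ℝ => r ^ n * (1 + r ^ 2) ^ q)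
      (n * r ^ (n - 1) * (1 + r ^ 2) ^ q + r ^ n * (2 * q * r * (1 + r ^ 2) ^ (q - 1))) r :=
  (hasDerivAt_pow n r).mul (base_deriv q r)

/-- weights -/
noncomputable def mW (n : ℕ) (β r : ℝ) : ℝ := r ^ (n - 1) * (1 + r ^ 2) ^ (-β - 1)
/-- weights -/
noncomputable def eW (n : ℕ) (β r : ℝ) : ℝ := r ^ (n - 1) * (1 + r ^ 2) ^ (-β)

theorem oneD_quad (hn : 1 ≤ n) {β : ℝ} (hβ : (n : ℝ) / 2 < β) :
    OneD (mW n β) (eW n β) (fun r => r ^ 2 - n / (2 * β - n)) (fun r => 2 * r)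
      (fun r => 2 * (r ^ n * (1 + r ^ 2) ^ (-β)))
      (fun r => 2 * (n * r ^ (n - 1) * (1 + r ^ 2) ^ (-β) +
        r ^ n * (2 * (-β) * r * (1 + r ^ 2) ^ (-β - 1))))
      (Real.sqrt (n / (2 * β - n))) (4 * β - 2 * n) := by
  have hn' : (1 : ℝ) ≤ n := by exact_mod_cast hn
  have h2 : 0 < 2 * β - n := by linarith
  have hz : 0 < (n : ℝ) / (2 * β - n) := by positivity
  have hkey : ∀ r : ℝ, 2 * (n * r ^ (n - 1) * (1 + r ^ 2) ^ (-β) +
        r ^ n * (2 * (-β) * r * (1 + r ^ 2) ^ (-β - 1))) =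
      -((4 * β - 2 * n) * (mW n β r * (r ^ 2 - n / (2 * β - n)))) := by
    intro r
    have hb := base_pos r
    have e1 : (1 + r ^ 2) ^ (-β) = (1 + r ^ 2) ^ (-β - 1) * (1 + r ^ 2) := by
      rw [← Real.rpow_add_one hb.ne']; congr 1; ring
    have e2 : r ^ n = r ^ (n - 1) * r := by
      rw [← pow_succ]; congr 1; omega
    unfold mW
    rw [e1, e2]
    field_simp
    ring
  refine ⟨Real.sqrt_pos.2 hz, by linarith, ?_, by fun_prop, ?_, ?_, ?_, ?_, ?_, ?_, ?_, ?_, ?_,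
    ?_, ?_⟩
  · intro r
    have := (hasDerivAt_pow 2 r).sub_const ((n : ℝ) / (2 * β - n))
    simpa using this
  · intro r hr
    linarith
  · rw [Real.sq_sqrt hz.le, sub_self]
  · intro r
    exact (N_deriv n (-β) r).const_mul 2
  · have := base_cont (-β)
    have := base_cont (-β - 1)
    fun_prop
  · intro r
    unfold eW
    have e2 : r ^ n = r ^ (n - 1) * r := by
      rw [← pow_succ]; congr 1; omega
    rw [e2]
    ring
  · rw [zero_pow (by omega)]
    ring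
  · intro r hr
    have := base_pos r
    positivity
  · unfold mW
    exact (continuous_pow _).mul (base_cont _)
  · intro r hr
    unfold mW
    have := base_pos r
    positivity
  · intro r hr
    simp only [hkey, neg_neg]
    exact le_refl _
  · intro r hr0 hr
    simp only [hkey]
    exact le_of_eq (by ring)

theorem oneD_pow (hn : 1 ≤ n) {β : ℝ} (hβ : (n : ℝ) / 2 - 1 < β) (hβ2 : β ≤ (n : ℝ) / 2 + 1) :
    OneD (mW n β) (eW n β)
      (fun r => (1 + r ^ 2) ^ ((β + 1 - n / 2) / 2) -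
        ((β + 1 + n / 2) / (β + 1 - n / 2)) ^ ((β + 1 - n / 2) / 2))
      (fun r => 2 * ((β + 1 - n / 2) / 2) * r * (1 + r ^ 2) ^ ((β + 1 - n / 2) / 2 - 1))
      (fun r => (β + 1 - n / 2) * (r ^ n * (1 + r ^ 2) ^ ((β + 1 - n / 2) / 2 - 1 - β)))
      (fun r => (β + 1 - n / 2) * (n * r ^ (n - 1) * (1 + r ^ 2) ^ ((β + 1 - n / 2) / 2 - 1 - β) +
        r ^ n * (2 * ((β + 1 - n / 2) / 2 - 1 - β) * r *
          (1 + r ^ 2) ^ ((β + 1 - n / 2) / 2 - 1 - β - 1))))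
      (Real.sqrt ((β + 1 + n / 2) / (β + 1 - n / 2) - 1)) ((β + 1 - n / 2) ^ 2) := by
  have hn' : (1 : ℝ) ≤ n := by exact_mod_cast hn
  obtain ⟨κ, hκ⟩ : ∃ κ : ℝ, κ = β + 1 - n / 2 := ⟨_, rfl⟩
  rw [← hκ]
  have hκ0 : 0 < κ := by rw [hκ]; linarith
  have hκ2 : κ ≤ 2 := by rw [hκ]; linarith
  obtain ⟨D0, hD0⟩ : ∃ D0 : ℝ, D0 = (β + 1 + n / 2) / κ := ⟨_, rfl⟩
  rw [← hD0]
  have hD01 : 1 < D0 := by
    rw [hD0, lt_div_iff₀ hκ0]
    rw [hκ]; linarith
  have hD0κ : κ * D0 = β + 1 + n / 2 := by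
    rw [hD0]; field_simp
  have hkey : ∀ r : ℝ, κ * (n * r ^ (n - 1) * (1 + r ^ 2) ^ (κ / 2 - 1 - β) +
        r ^ n * (2 * (κ / 2 - 1 - β) * r * (1 + r ^ 2) ^ (κ / 2 - 1 - β - 1))) =
      -(κ ^ 2 * (mW n β r * ((1 + r ^ 2) ^ (κ / 2 - 1) * ((1 + r ^ 2) - D0)))) := by
    intro r
    have hb := base_pos r
    have e1 : (1 + r ^ 2) ^ (κ / 2 - 1 - β) =
        (1 + r ^ 2) ^ (-β - 1) * (1 + r ^ 2) ^ (κ / 2 - 1) * (1 + r ^ 2) := by
      rw [← Real.rpow_add hb, ← Real.rpow_add_one hb.ne']; congr 1; ring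
    have e3 : (1 + r ^ 2) ^ (κ / 2 - 1 - β - 1) =
        (1 + r ^ 2) ^ (-β - 1) * (1 + r ^ 2) ^ (κ / 2 - 1) := by
      rw [← Real.rpow_add hb]; congr 1; ring
    have e2 : r ^ n = r ^ (n - 1) * r := by
      rw [← pow_succ]; congr 1; omega
    unfold mW
    rw [e1, e2, e3]
    have e4 : κ ^ 2 * D0 = κ * (β + 1 + n / 2) := by rw [← hD0κ]; ring
    have e5 : (n : ℝ) = 2 * (β + 1 - κ) := by rw [hκ]; ring
    have e6 : κ ^ 2 * D0 = κ * (2 * (β + 1) - κ) := by rw [e4, e5]; ring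
    have e7 : κ ^ 2 * ((1 + r ^ 2) - D0) = κ ^ 2 * (1 + r ^ 2) - κ * (2 * (β + 1) - κ) := by
      rw [mul_sub, e6]
    have e8 : -(κ ^ 2 * (r ^ (n - 1) * (1 + r ^ 2) ^ (-β - 1) *
        ((1 + r ^ 2) ^ (κ / 2 - 1) * ((1 + r ^ 2) - D0)))) =
        -((κ ^ 2 * ((1 + r ^ 2) - D0)) * (r ^ (n - 1) * (1 + r ^ 2) ^ (-β - 1) *
        (1 + r ^ 2) ^ (κ / 2 - 1))) := by ring
    rw [e8, e7, e5]
    ring
  have hz : 0 < D0 - 1 := by linarith
  have hsq : (1 + Real.sqrt (D0 - 1) ^ 2) = D0 := by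
    rw [Real.sq_sqrt hz.le]; ring
  have hsplit : ∀ x : ℝ, 0 < x → x ^ (κ / 2) = x ^ (κ / 2 - 1) * x := by
    intro x hx
    rw [← Real.rpow_add_one hx.ne']; congr 1; ring
  refine ⟨Real.sqrt_pos.2 hz, by positivity, ?_, ?_, ?_, ?_, ?_, ?_, ?_, ?_, ?_, ?_, ?_, ?_, ?_⟩
  · intro r
    exact (base_deriv _ r).sub_const _
  · have := base_cont (κ / 2 - 1)
    fun_prop
  · intro r hr
    have := base_pos r
    positivity
  · rw [hsq, sub_self]
  · intro r
    exact (N_deriv n _ r).const_mul _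
  · have := base_cont (κ / 2 - 1 - β)
    have := base_cont (κ / 2 - 1 - β - 1)
    fun_prop
  · intro r
    unfold eW
    have hb := base_pos r
    have e2 : r ^ n = r ^ (n - 1) * r := by
      rw [← pow_succ]; congr 1; omega
    have e1 : (1 + r ^ 2) ^ (κ / 2 - 1 - β) =
        (1 + r ^ 2) ^ (-β) * (1 + r ^ 2) ^ (κ / 2 - 1) := by
      rw [← Real.rpow_add hb]; congr 1; ring
    rw [e2, e1]
    ring
  · rw [zero_pow (by omega)]
    ring
  · intro r hr
    have := base_pos r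
    positivity
  · unfold mW
    exact (continuous_pow _).mul (base_cont _)
  · intro r hr
    unfold mW
    have := base_pos r
    positivity
  · intro r hr
    simp only [hkey, neg_neg]
    have hb := base_pos r
    have hr0 : 0 ≤ r := (Real.sqrt_nonneg _).trans hr
    have hm : 0 ≤ mW n β r := by unfold mW; positivity
    have hDr : D0 ≤ 1 + r ^ 2 := by
      rw [← hsq]
      have := pow_le_pow_left₀ (Real.sqrt_nonneg _) hr 2
      linarith
    apply mul_le_mul_of_nonneg_left _ (by positivity)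
    apply mul_le_mul_of_nonneg_left _ hm
    rw [hsplit _ hb, hsplit D0 (by linarith)]
    have h1 : (1 + r ^ 2) ^ (κ / 2 - 1) ≤ D0 ^ (κ / 2 - 1) :=
      Real.rpow_le_rpow_of_nonpos (by linarith) hDr (by linarith)
    nlinarith
  · intro r hr0 hr
    simp only [hkey]
    have hb := base_pos r
    have hm : 0 ≤ mW n β r := by unfold mW; positivity
    have hDr : 1 + r ^ 2 ≤ D0 := by
      rw [← hsq]
      have := pow_le_pow_left₀ hr0 hr 2
      linarith
    have h1 : D0 ^ (κ / 2 - 1) ≤ (1 + r ^ 2) ^ (κ / 2 - 1) :=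
      Real.rpow_le_rpow_of_nonpos hb hDr (by linarith)
    rw [← mul_neg, ← mul_neg]
    apply mul_le_mul_of_nonneg_left _ (by positivity)
    apply mul_le_mul_of_nonneg_left _ hm
    rw [hsplit _ hb, hsplit D0 (by linarith)]
    nlinarith

end Pool.Agent.W773.Hardy
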