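import Mathlib
import Pool.Agent.W773.Hardy.A13

set_option autoImplicit false
set_option linter.style.haveILetI false
open MeasureTheory Set Filter Topology Metric
open scoped RealInnerProductSpace ContDiff ENNReal

namespace Pool.Agent.W773.Hardy

variable {n : ℕ}

theorem radial_ineq (hn : 1 ≤ n) {u : E n → ℝ} (hu : ContDiff ℝ 1 u) (hc : HasCompactSupport u)
    {β a Λ : ℝ} {g g' N N' : ℝ → ℝ} (h : OneD (mW n β) (eW n β) g g' N N' a Λ) :
    Λ * ∫ x : E n, D x ^ (-β - 1) * (V u x - phi u a) ^ 2 ≤ num (-β) (V u) := by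
  have hφ := phi_hasDerivAt hu hc
  have hφc := phi'_cont hu hc
  have hφcont : Continuous (phi u) := continuous_iff_continuousAt.2 fun r => (hφ r).continuousAt
  have hmain := h.main hφ hφc
  haveI : Nonempty (Fin n) := ⟨⟨0, hn⟩⟩
  haveI : Nontrivial (E n) := inferInstance
  set K : ℝ := (volume : Measure (E n)).real (ball 0 1) with hK
  have hK0 : 0 ≤ K := measureReal_nonneg
  have e1 : ∫ x : E n, D x ^ (-β - 1) * (V u x - phi u a) ^ 2 =
      n * (K * ∫ r in Ioi (0 : ℝ), mW n β r * (phi u r - phi u a) ^ 2) := by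
    have h1 := integral_fun_norm_addHaar (volume : Measure (E n))
      (fun r => (1 + r ^ 2) ^ (-β - 1) * (phi u r - phi u a) ^ 2)
    rw [finrank_euclideanSpace, Fintype.card_fin, nsmul_eq_mul, smul_eq_mul, ← hK] at h1
    unfold D V
    rw [h1]
    congr 3
    funext r
    unfold mW
    rw [smul_eq_mul]
    ring
  have e2 : num (-β) (V u) = n * (K * ∫ r in Ioi (0 : ℝ), eW n β r * phi' u r ^ 2) := by
    have h1 := integral_fun_norm_addHaar (volume : Measure (E n))
      (fun r => (1 + r ^ 2) ^ (-β) * phi' u r ^ 2)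
    rw [finrank_euclideanSpace, Fintype.card_fin, nsmul_eq_mul, smul_eq_mul, ← hK] at h1
    have h2 : num (-β) (V u) = ∫ x : E n, (1 + ‖x‖ ^ 2) ^ (-β) * phi' u ‖x‖ ^ 2 := by
      unfold num D
      apply integral_congr_ae
      refine Eventually.of_forall fun x => ?_
      simp only
      congr 1
      rw [(V_hasFDerivAt hu hc x).fderiv, norm_smul, innerSL_apply_norm, Real.norm_eq_abs,
        mul_pow, sq_abs]
      by_cases hx : x = 0
      · subst hx
        simp [phi'_zero]
      · have hx0 : ‖x‖ ≠ 0 := norm_ne_zero_iff.2 hx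
        field_simp
    rw [h2, h1]
    congr 3
    funext r
    unfold eW
    rw [smul_eq_mul]
    ring
  have hB2i : Integrable fun r : ℝ => eW n β r * phi' u r ^ 2 := by
    have hs : HasCompactSupport (phi' u) := by
      obtain ⟨R, hR, h1, h2⟩ := phi_support hc
      have h3 : HasCompactSupport (phi u) := by
        refine HasCompactSupport.intro (isCompact_closedBall (0 : ℝ) R) fun x hx => ?_
        rw [mem_closedBall_zero_iff, not_le, Real.norm_eq_abs] at hx
        exact h2 _ hx
      have h4 : phi' u = deriv (phi u) := by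
        funext r
        exact ((hφ r).deriv).symm
      rw [h4]
      exact h3.deriv
    refine Continuous.integrable_of_hasCompactSupport ?_ ?_
    · unfold eW
      exact ((continuous_pow _).mul (base_cont _)).mul (hφc.pow 2)
    · exact HasCompactSupport.mul_left (hs.comp_left (g := fun t : ℝ => t ^ 2) (by simp))
  set B1 := ∫ r in Ioi (0 : ℝ), mW n β r * (phi u r - phi u a) ^ 2 with hB1
  set B2 := ∫ r in Ioi (0 : ℝ), eW n β r * phi' u r ^ 2 with hB2
  have hmpos : ∀ r : ℝ, 0 < r → 0 ≤ mW n β r := fun r hr => h.mnn r hr.le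
  have hepos : ∀ r : ℝ, 0 < r → 0 ≤ eW n β r := fun r hr => by
    unfold eW
    have := base_pos r
    positivity
  have hB2e : ∫⁻ s in Ioi (0 : ℝ), ENNReal.ofReal (eW n β s * phi' u s ^ 2 / Λ) =
      ENNReal.ofReal (B2 / Λ) := by
    rw [hB2, ← integral_div, ofReal_integral_eq_lintegral_ofReal]
    · exact (hB2i.integrableOn).div_const _
    · refine (ae_restrict_iff' measurableSet_Ioi).2 (Eventually.of_forall fun s hs => ?_)
      have := hepos s hs
      have := h.Λ0
      simp only [Pi.zero_apply]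
      positivity
  have hB1e : B1 = (∫⁻ r in Ioi (0 : ℝ),
      ENNReal.ofReal (mW n β r * (phi u r - phi u a) ^ 2)).toReal := by
    rw [hB1, integral_eq_lintegral_of_nonneg_ae]
    · refine (ae_restrict_iff' measurableSet_Ioi).2 (Eventually.of_forall fun s hs => ?_)
      have := hmpos s hs
      simp only [Pi.zero_apply]
      positivity
    · exact (h.mc.mul ((hφcont.sub continuous_const).pow 2)).aestronglyMeasurable
  have hB2nn : 0 ≤ B2 := setIntegral_nonneg measurableSet_Ioi fun s hs =>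
    mul_nonneg (hepos s hs) (sq_nonneg _)
  have hle : B1 ≤ B2 / Λ := by
    rw [hB1e]
    rw [hB2e] at hmain
    have h5 := ENNReal.toReal_mono ENNReal.ofReal_ne_top hmain
    rwa [ENNReal.toReal_ofReal (div_nonneg hB2nn h.Λ0.le)] at h5
  rw [le_div_iff₀ h.Λ0] at hle
  rw [e1, e2]
  have hn0 : (0 : ℝ) ≤ n := Nat.cast_nonneg n
  calc Λ * (n * (K * B1)) = n * (K * (B1 * Λ)) := by ring
    _ ≤ n * (K * B2) :=
      mul_le_mul_of_nonneg_left (mul_le_mul_of_nonneg_left hle hK0) hn0

theorem lower_constrained (hn : 1 ≤ n) {u : E n → ℝ} (hu : ContDiff ℝ 1 u)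
    (hc : HasCompactSupport u) {β a Λ Λ' : ℝ} (hβ0 : 0 < β) (hβ : (n : ℝ) / 2 - 1 < β)
    {g g' N N' : ℝ → ℝ} (h : OneD (mW n β) (eW n β) g g' N N' a Λ)
    (h1 : 0 ≤ Λ') (h2 : Λ' ≤ Λ) (h3 : Λ' ≤ 2 * β)
    (hz : ∫ x : E n, D x ^ (-β - 1) * u x = 0) :
    Λ' * den (-β) u ≤ num (-β) u := by
  have hq : -β - 1 < -(n : ℝ) / 2 := by linarith
  have hn0 : (0 : ℝ) ≤ n := Nat.cast_nonneg n
  have hV := V_contDiff hu hc
  have hVc := V_compact hc
  have hv : ContDiff ℝ 1 (fun x => u x - V u x) := hu.sub hV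
  have hvc : HasCompactSupport (fun x => u x - V u x) := hc.sub hVc
  have r1 := radial_ineq hn hu hc h
  have r2 := nonradial hβ0 hv hvc (pair_zero hn hu hc (by linarith))
  have s1 := num_split hn hu hc β
  have s2 := den_split hn hu hc hq (phi u a)
  set X := ∫ x : E n, D x ^ (-β - 1) * (V u x - phi u a) ^ 2
  set Y := den (-β) (fun x => u x - V u x)
  have hX : 0 ≤ X := integral_nonneg fun x =>
    mul_nonneg (Real.rpow_pos_of_pos (D_pos x) _).le (sq_nonneg _)
  have hY : 0 ≤ Y := integral_nonneg fun x =>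
    mul_nonneg (Real.rpow_pos_of_pos (D_pos x) _).le (sq_nonneg _)
  have t1 : Λ' * X ≤ Λ * X := mul_le_mul_of_nonneg_right h2 hX
  have t2 : Λ' * Y ≤ 2 * β * Y := mul_le_mul_of_nonneg_right h3 hY
  have t3 : Λ' * (X + Y) ≤ num (-β) u := by rw [s1]; linarith
  rw [← s2] at t3
  refine le_trans (mul_le_mul_of_nonneg_left ?_ h1) t3
  -- den u ≤ ∫ D^(-β-1) (u-c)²
  have iD := Dpow_integrable hq
  have i1 : Integrable fun x : E n => D x ^ (-β - 1) * u x ^ 2 := i_den _ _ hu.continuous hc
  have i2 : Integrable fun x : E n => D x ^ (-β - 1) * u x := by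
    refine Continuous.integrable_of_hasCompactSupport ?_ hc.mul_left
    exact (Dpow_cont _).mul hu.continuous
  have hpt : ∀ x : E n, D x ^ (-β - 1) * (u x - phi u a) ^ 2 =
      D x ^ (-β - 1) * u x ^ 2 - 2 * phi u a * (D x ^ (-β - 1) * u x) +
      phi u a ^ 2 * D x ^ (-β - 1) := by
    intro x; ring
  have i12 : Integrable fun x : E n => D x ^ (-β - 1) * u x ^ 2 -
      2 * phi u a * (D x ^ (-β - 1) * u x) := i1.sub (i2.const_mul _)
  rw [integral_congr_ae (Eventually.of_forall hpt), integral_add i12 (iD.const_mul _),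
    integral_sub i1 (i2.const_mul _), integral_const_mul, integral_const_mul, hz]
  have hI : 0 < I n (-β - 1) := I_pos hq
  have hI' : 0 < ∫ x : E n, D x ^ (-β - 1) := hI
  have : 0 ≤ phi u a ^ 2 * ∫ x : E n, D x ^ (-β - 1) := by positivity
  unfold den
  linarith

end Pool.Agent.W773.Hardy
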