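import Mathlib
import Pool.Agent.W773.Hardy.A14

set_option autoImplicit false
set_option linter.style.haveILetI false
open MeasureTheory Set Filter Topology Metric
open scoped RealInnerProductSpace ContDiff ENNReal

namespace Pool.Agent.W773.Hardy

variable {n : ℕ}

theorem den_pos {α : ℝ} {u : E n → ℝ} (hu : Continuous u) (hc : HasCompactSupport u)
    (h0 : u ≠ 0) : 0 < den α u := by
  unfold den
  obtain ⟨x, hx⟩ : ∃ x, u x ≠ 0 := by
    by_contra hcon
    push Not at hcon
    exact h0 (funext hcon)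
  refine Continuous.integral_pos_of_hasCompactSupport_nonneg_nonzero (x := x) ?_ ?_ ?_ ?_
  · exact (Dpow_cont _).mul (hu.pow 2)
  · exact HasCompactSupport.mul_left (hc.comp_left (g := fun t : ℝ => t ^ 2) (by simp))
  · intro y
    exact mul_nonneg (Real.rpow_pos_of_pos (D_pos y) _).le (sq_nonneg _)
  · exact mul_ne_zero (Real.rpow_pos_of_pos (D_pos x) _).ne' (pow_ne_zero 2 hx)

/-- existence of admissible functions -/
theorem exists_adm (hn : 1 ≤ n) (α : ℝ) : ∃ u : E n → ℝ, Adm α u := by
  set a : E n := EuclideanSpace.single (⟨0, by omega⟩ : Fin n) (1 : ℝ) with ha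
  have ha1 : ‖a‖ = 1 := by rw [ha]; simp
  let f : ContDiffBump (0 : E n) := ⟨1, 2, one_pos, one_lt_two⟩
  have hw : ContDiff ℝ ∞ (fun x : E n => ⟪a, x⟫) := contDiff_const.inner ℝ contDiff_id
  refine ⟨fun x => ⟪a, x⟫ * f x, hw.mul f.contDiff, f.hasCompactSupport.mul_left, ?_, ?_⟩
  · intro h
    have h1 := congrFun h a
    have h2 : f a = 1 := f.one_of_mem_closedBall (by
      rw [mem_closedBall_zero_iff, ha1])
    simp only [Pi.zero_apply] at h1
    rw [h2, real_inner_self_eq_norm_sq, ha1] at h1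
    norm_num at h1
  · intro _
    have h1 := integral_neg_eq_self (fun x : E n => D x ^ (α - 1) * (⟪a, x⟫ * f x)) volume
    have h2 : ∀ x : E n, D (-x) ^ (α - 1) * (⟪a, -x⟫ * f (-x)) =
        -(D x ^ (α - 1) * (⟪a, x⟫ * f x)) := by
      intro x
      have : D (-x) = D x := by unfold D; rw [norm_neg]
      rw [this, inner_neg_right, f.neg]; ring
    simp only [h2] at h1
    rw [integral_neg] at h1
    linarith

/-- `ratio bound → lower bound` in the unconstrained case, exponent `κ²`. -/
theorem lower_kappa {α : ℝ} (hn : 1 ≤ n) (h1 : -((n : ℝ) - 2) / 2 ≤ α) (h2 : α ≤ ((n : ℝ) + 2) / 2)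
    {u : E n → ℝ} (hu : ContDiff ℝ 1 u) (hc : HasCompactSupport u) :
    ((n : ℝ) + 2 * α - 2) ^ 2 / 4 * den α u ≤ num α u := by
  have hn' : (1 : ℝ) ≤ n := by exact_mod_cast hn
  set κ : ℝ := (n : ℝ) / 2 + α - 1 with hκ
  have e2 : ((n : ℝ) + 2 * α - 2) ^ 2 / 4 = κ ^ 2 := by rw [hκ]; ring
  have hκ0 : 0 ≤ κ := by rw [hκ]; linarith
  have hκn : κ ≤ n := by rw [hκ]; linarith
  rw [e2]
  refine le_trans ?_ (ground α (κ / 2) u hu hc)
  unfold den
  rw [← integral_const_mul]
  have i1 := i_den (α - 1) u hu.continuous hc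
  refine integral_mono (i1.const_mul _) ?_ ?_
  · refine Continuous.integrable_of_hasCompactSupport ?_ ?_
    · refine Continuous.mul ?_ ((Dpow_cont _).mul (hu.continuous.pow 2))
      refine continuous_const.mul (continuous_const.add (continuous_const.mul ?_))
      exact (continuous_norm.pow 2).div (D_contDiff (k := 0)).continuous fun x => (D_pos x).ne'
    · exact HasCompactSupport.mul_left
        (HasCompactSupport.mul_left (hc.comp_left (g := fun t : ℝ => t ^ 2) (by simp)))
  · intro x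
    have hD := D_pos x
    simp only
    apply mul_le_mul_of_nonneg_right
    · have hs0 : 0 ≤ ‖x‖ ^ 2 / D x := by positivity
      have hs1 : ‖x‖ ^ 2 / D x ≤ 1 := by
        rw [div_le_one hD]
        unfold D; linarith
      have e3 : α - 1 - κ / 2 = κ / 2 - n / 2 := by rw [hκ]; ring
      rw [e3]
      set s := ‖x‖ ^ 2 / D x
      have : 2 * (κ / 2) * (n + 2 * (κ / 2 - n / 2) * s) - κ ^ 2 = κ * ((n - κ) * (1 - s)) := by
        ring
      have h3 : 0 ≤ κ * ((n - κ) * (1 - s)) :=
        mul_nonneg hκ0 (mul_nonneg (by linarith) (by linarith))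
      linarith
    · exact mul_nonneg (Real.rpow_pos_of_pos hD _).le (sq_nonneg _)

theorem lower_lin {α : ℝ} {u : E n → ℝ} (hu : ContDiff ℝ 1 u) (hc : HasCompactSupport u) :
    2 * n * (α - 1) * den α u ≤ num α u := by
  refine le_trans (le_of_eq ?_) (ground α (α - 1) u hu hc)
  unfold den
  rw [← integral_const_mul]
  apply integral_congr_ae
  refine Eventually.of_forall fun x => ?_
  simp only
  ring

theorem kappa_case {α : ℝ} (hn : 3 ≤ n) (hα : α ≠ -((n : ℝ) - 2) / 2)
    (h1 : -((n : ℝ) + 2) / 2 ≤ α) (h2 : α ≤ ((n : ℝ) + 2) / 2) {u : E n → ℝ} (hu : Adm α u) :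
    ((n : ℝ) + 2 * α - 2) ^ 2 / 4 * den α u ≤ num α u := by
  have hn' : (3 : ℝ) ≤ n := by exact_mod_cast hn
  have hu1 : ContDiff ℝ 1 u := hu.1.of_le (by exact_mod_cast le_top)
  rcases lt_or_gt_of_ne hα with h | h
  · have hz := hu.2.2.2 h
    have ho := oneD_pow (n := n) (by omega) (β := -α) (by linarith) (by linarith)
    have e1 : α = -(-α) := by ring
    have hle : (-α + 1 - n / 2) ^ 2 ≤ 2 * (-α) := by
      nlinarith
    have := lower_constrained (by omega) hu1 hu.2.1 (β := -α) (by linarith) (by linarith) ho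
      (sq_nonneg _) le_rfl hle (by
        have : -(-α) - 1 = α - 1 := by ring
        rw [this]; exact hz)
    rw [neg_neg] at this
    have e2 : ((n : ℝ) + 2 * α - 2) ^ 2 / 4 = (-α + 1 - n / 2) ^ 2 := by ring
    rw [e2]
    exact this
  · exact lower_kappa (by omega) h.le h2 hu1 hu.2.1

theorem quad_case {α : ℝ} (hn : 3 ≤ n) (h1 : -(n : ℝ) ≤ α) (h2 : α ≤ -((n : ℝ) + 2) / 2)
    {u : E n → ℝ} (hu : Adm α u) : (-4 * α - 2 * n) * den α u ≤ num α u := by
  have hn' : (3 : ℝ) ≤ n := by exact_mod_cast hn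
  have hu1 : ContDiff ℝ 1 u := hu.1.of_le (by exact_mod_cast le_top)
  have hz := hu.2.2.2 (by linarith)
  have ho := oneD_quad (n := n) (by omega) (β := -α) (by linarith)
  have := lower_constrained (by omega) hu1 hu.2.1 (β := -α) (by linarith) (by linarith) ho
    (by linarith) le_rfl (by linarith) (by
      have : -(-α) - 1 = α - 1 := by ring
      rw [this]; exact hz)
  rw [neg_neg] at this
  have e2 : -4 * α - 2 * (n : ℝ) = 4 * -α - 2 * n := by ring
  rw [e2]
  exact this

theorem lin_case {α : ℝ} (hn : 3 ≤ n) (h1 : α ≤ -(n : ℝ))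
    {u : E n → ℝ} (hu : Adm α u) : (-2 * α) * den α u ≤ num α u := by
  have hn' : (3 : ℝ) ≤ n := by exact_mod_cast hn
  have hu1 : ContDiff ℝ 1 u := hu.1.of_le (by exact_mod_cast le_top)
  have hz := hu.2.2.2 (by linarith)
  have ho := oneD_quad (n := n) (by omega) (β := -α) (by linarith)
  have := lower_constrained (by omega) hu1 hu.2.1 (β := -α) (Λ' := 2 * -α) (by linarith)
    (by linarith) ho (by linarith) (by linarith) le_rfl (by
      have : -(-α) - 1 = α - 1 := by ring
      rw [this]; exact hz)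
  rw [neg_neg] at this
  have e2 : -2 * α = 2 * -α := by ring
  rw [e2]
  exact this

end Pool.Agent.W773.Hardy
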